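import Pool.Agent.N666.TM.Mean

set_option autoImplicit false

/-! From finite families of integer vectors with the uniform weight to all weights. -/

namespace Pool.Agent.Helper94.BC

open Finset Filter Topology
open Pool.Agent.N666.TM (Well)
open Pool.Agent.Y722.HS (red)

/-- a sequence with given multiplicities -/
lemma exists_seq {α : Type} [DecidableEq α] [Nonempty α] (Z : Finset α) (n : α → ℕ) :
    ∃ x : ℕ → α, ∀ (Q : α → Prop) [DecidablePred Q],
      ((range (∑ z ∈ Z, n z)).filter fun k => Q (x k)).card = ∑ z ∈ Z.filter Q, n z := by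
  classical
  induction Z using Finset.induction_on with
  | empty => exact ⟨fun _ => Classical.arbitrary α, fun Q _ => by simp⟩
  | insert a Z ha ih =>
    obtain ⟨x, hx⟩ := ih
    refine ⟨fun k => if k < ∑ z ∈ Z, n z then x k else a, fun Q _ => ?_⟩
    rw [sum_insert ha, add_comm, range_eq_Ico, ← Ico_union_Ico_eq_Ico (Nat.zero_le (∑ z ∈ Z, n z)) (Nat.le_add_right _ _),
      filter_union, card_union_of_disjoint]
    · have h1 : ((Ico 0 (∑ z ∈ Z, n z)).filter fun k => Q (if k < ∑ z ∈ Z, n z then x k else a)).card =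
          ∑ z ∈ Z.filter Q, n z := by
        rw [← hx Q, range_eq_Ico]
        congr 1
        apply filter_congr
        intro k hk
        rw [mem_Ico] at hk
        rw [if_pos hk.2]
      have h2 : ((Ico (∑ z ∈ Z, n z) (∑ z ∈ Z, n z + n a)).filter fun k => Q (if k < ∑ z ∈ Z, n z then x k else a)).card =
          if Q a then n a else 0 := by
        by_cases hQ : Q a
        · rw [if_pos hQ, filter_true_of_mem, Nat.card_Ico]
          · omega
          · intro k hk
            rw [mem_Ico] at hk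
            rw [if_neg (by omega)]
            exact hQ
        · rw [if_neg hQ, filter_false_of_mem, card_empty]
          intro k hk
          rw [mem_Ico] at hk
          rw [if_neg (by omega)]
          exact hQ
      rw [h1, h2, filter_insert]
      split_ifs with hQ
      · rw [sum_insert (by rw [mem_filter]; exact fun h => ha h.1), add_comm]
      · rw [add_zero]
    · rw [disjoint_left]
      intro k hk1 hk2
      rw [mem_filter, mem_Ico] at hk1 hk2
      omega

section
variable {ι : Type} [Fintype ι] [DecidableEq ι]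

/-- If the weights `w` on a finite set of integer vectors are well distributed modulo the integers up to
`2 H + 1`, with room to spare, then a bound for the proportion of the bad members of all well distributed
finite families is a bound for the weight of the bad vectors. -/
theorem weight_le (Z : Finset (ι → ℤ)) (w : (ι → ℤ) → ℝ) (hw : ∀ z ∈ Z, 0 ≤ w z) (hw1 : ∑ z ∈ Z, w z = 1)
    (H : ℕ) (hd : ∀ q : ℕ, 1 ≤ q → q ≤ 2 * H + 1 → ∀ ρ : ι → ZMod q,
      |∑ z ∈ Z.filter (fun z => red q z = ρ), w z - 1 / (q : ℝ) ^ Fintype.card ι| ≤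
        1 / 2 * (1 / (2 * H + 1) * (1 / (q : ℝ) ^ Fintype.card ι)))
    (Bad : (ι → ℤ) → Prop) [DecidablePred Bad] (p : ℝ)
    (hBad : ∀ (S : Finset ℕ) (x : ℕ → ι → ℤ), Well S x H → ((S.filter fun n => Bad (x n)).card : ℝ) ≤ p * S.card) :
    ∑ z ∈ Z.filter Bad, w z ≤ p := by
  classical
  -- the multiplicities
  obtain ⟨n, hn⟩ : ∃ n : ℕ → (ι → ℤ) → ℕ, n = fun (M : ℕ) z => ⌊w z * (M : ℝ)⌋₊ := ⟨_, rfl⟩
  have hlim : ∀ z ∈ Z, Tendsto (fun M : ℕ => (n M z : ℝ) / M) atTop (𝓝 (w z)) := by
    intro z hz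
    rw [hn]
    exact (tendsto_nat_floor_mul_div_atTop (R := ℝ) (hw z hz)).comp tendsto_natCast_atTop_atTop
  have hlimS : ∀ Z' ⊆ Z, Tendsto (fun M : ℕ => ((∑ z ∈ Z', n M z : ℕ) : ℝ) / M) atTop (𝓝 (∑ z ∈ Z', w z)) := by
    intro Z' hZ'
    have h1 := tendsto_finsetSum Z' fun z hz => hlim z (hZ' hz)
    refine h1.congr fun M => ?_
    push_cast
    rw [sum_div]
  obtain ⟨N, hN⟩ : ∃ N : ℕ → ℕ, N = fun M => ∑ z ∈ Z, n M z := ⟨_, rfl⟩
  have hlimN : Tendsto (fun M : ℕ => (N M : ℝ) / M) atTop (𝓝 1) := by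
    have := hlimS Z (subset_refl _)
    rw [hw1] at this
    rw [hN]
    exact this
  have hlimR : ∀ Z' ⊆ Z, Tendsto (fun M : ℕ => ((∑ z ∈ Z', n M z : ℕ) : ℝ) / N M) atTop (𝓝 (∑ z ∈ Z', w z)) := by
    intro Z' hZ'
    have h1 := (hlimS Z' hZ').div hlimN one_ne_zero
    rw [div_one] at h1
    refine h1.congr' ?_
    filter_upwards [eventually_gt_atTop 0] with M hM
    have : (M : ℝ) ≠ 0 := by exact_mod_cast hM.ne'
    simp only [Pi.div_apply]
    rw [div_div_div_cancel_right₀ this]
  choose x hx using fun M => exists_seq Z (n M)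
  -- the families are well distributed
  have hwell : ∀ᶠ M : ℕ in atTop, Well (range (N M)) (x M) H := by
    have h1 : ∀ᶠ M : ℕ in atTop, (1 / 2 : ℝ) < (N M : ℝ) / M := hlimN.eventually (lt_mem_nhds (by norm_num))
    have h2 : ∀ᶠ M : ℕ in atTop, ∀ q ∈ Icc 1 (2 * H + 1), ∀ ρ : ι → ZMod q,
        |((∑ z ∈ Z.filter (fun z => red q z = ρ), n M z : ℕ) : ℝ) / N M - 1 / (q : ℝ) ^ Fintype.card ι| ≤
          1 / (2 * H + 1) * (1 / (q : ℝ) ^ Fintype.card ι) := by
      rw [eventually_all_finset]
      intro q hq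
      rw [mem_Icc] at hq
      have : NeZero q := ⟨by omega⟩
      rw [eventually_all]
      intro ρ
      have h3 := hlimR (Z.filter (fun z => red q z = ρ)) (filter_subset _ _)
      have h4 := (h3.sub_const (1 / (q : ℝ) ^ Fintype.card ι)).abs
      have hpos : 0 < 1 / (2 * H + 1 : ℝ) * (1 / (q : ℝ) ^ Fintype.card ι) := by
        have : (0 : ℝ) < q := by exact_mod_cast (by omega : 0 < q)
        positivity
      have h5 := h4.eventually (gt_mem_nhds (lt_of_le_of_lt (hd q hq.1 hq.2 ρ) (by linarith : _ <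
        1 / (2 * H + 1 : ℝ) * (1 / (q : ℝ) ^ Fintype.card ι))))
      filter_upwards [h5] with M hM
      exact hM.le
    filter_upwards [h1, h2, eventually_gt_atTop 0] with M hM1 hM2 hM3
    refine ⟨?_, fun q hq1 hq ρ => ?_⟩
    · rw [card_range]
      rcases Nat.eq_zero_or_pos (N M) with h | h
      · rw [h, Nat.cast_zero, zero_div] at hM1
        norm_num at hM1
      · exact h
    · have h3 := hM2 q (mem_Icc.2 ⟨hq1, hq⟩) ρ
      have h4 := hx M (fun z => red q z = ρ)
      have h5 : N M = ∑ z ∈ Z, n M z := by rw [hN]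
      rw [← h5] at h4
      rw [h4, card_range]
      exact h3
  -- the bad members
  have h6 : ∀ᶠ M : ℕ in atTop, ((∑ z ∈ Z.filter Bad, n M z : ℕ) : ℝ) / N M ≤ p := by
    filter_upwards [hwell] with M hM
    have h3 := hBad _ _ hM
    have h4 := hx M Bad
    have h5 : N M = ∑ z ∈ Z, n M z := by rw [hN]
    rw [← h5] at h4
    rw [h4, card_range] at h3
    have h7 : (0 : ℝ) < N M := by
      have := hM.pos
      rw [card_range] at this
      exact_mod_cast this
    rw [div_le_iff₀ h7]
    exact h3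
  exact le_of_tendsto (hlimR (Z.filter Bad) (filter_subset _ _)) h6

end

end Pool.Agent.Helper94.BC
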