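import Pool.Agent.Helper94.BC.Win
import Pool.Agent.Helper94.EN.Conv

set_option autoImplicit false

/-! The engine with windows for theorems on families of vectors of natural numbers with a free
parameter `y` and the exceptional proportion `y ^ (-A)`. -/

namespace Pool.Agent.Helper94.BC

open Finset Filter Topology MeasureTheory
open Pool.Agent.N666.TM (Well)
open Pool.Agent.N647.TS (WellN)
open Pool.Agent.Helper94.EN (md well_equiv well_md)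

section
variable {ι : Type} [Fintype ι] [DecidableEq ι]

open Classical in
/-- For almost all parameters, all large `t` and all integer vectors `z` in the windows of length
`t ^ C` the property `R T` holds for the residues of `z` modulo a multiple of all integers up to
`G(t) ^ κ`, for all `T` between `t ^ ε` and `G(t) ^ κ`. -/
theorem bc_conv {d : ℕ} (e : Fin d ≃ ι) (A Me y₁ : ℕ) (R : ℕ → (Fin d → ℕ) → Prop)
    (heng : ∀ (S : Finset ℕ) (v : ℕ → Fin d → ℕ) (H y : ℕ), WellN S v H → y₁ ≤ y → ∀ E : (Fin d → ℕ) → Prop,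
      (∀ m, (∀ T : ℕ, y ≤ T → T ^ Me ≤ 2 * H + 1 → R T m) → E m) →
      ((S.filter fun t => ¬ E (v t)).card : ℝ) ≤ 1 / (y : ℝ) ^ A * S.card)
    (ε C : ℝ) (hε : 0 < ε) (hC : 0 ≤ C) (hA : 2 + C * d ≤ ε * A) (G : ℕ → ℝ) (hG : Tendsto G atTop atTop) :
    (∀ (u v : ι → ℝ) (F : ι → ℕ → ℝ → ℝ), (∀ i, ∀ᶠ t in atTop, Cvx (u i) (v i) (G t) (F i t)) →
      ∀ᵐ ξ : ι → ℝ, (∀ i, ξ i ∈ Set.Ioc (u i) (v i)) → ∀ᶠ t in atTop, ∀ z : ι → ℤ,
        (∀ i, |(z i : ℝ) - F i t (ξ i)| ≤ (t : ℝ) ^ C) →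
        ∃ L : ℕ, 0 < L ∧ (∀ q : ℕ, 1 ≤ q → (q : ℝ) ≤ (G t) ^ (1 / (3 * (Me + 1)) : ℝ) → q ∣ L) ∧
          ∀ T : ℕ, (t : ℝ) ^ ε ≤ T → (T : ℝ) ≤ (G t) ^ (1 / (3 * (Me + 1)) : ℝ) → R T (md L fun k => z (e k))) ∧
    (∀ g c : ι → ℕ → ℝ, (∀ i, ∀ᶠ t in atTop, G t ≤ g i t) →
      ∀ᵐ ξ : ι → ℝ, ∀ᶠ t in atTop, ∀ z : ι → ℤ,
        (∀ i, |(z i : ℝ) - (ξ i * g i t + c i t)| ≤ (t : ℝ) ^ C) →
        ∃ L : ℕ, 0 < L ∧ (∀ q : ℕ, 1 ≤ q → (q : ℝ) ≤ (G t) ^ (1 / (3 * (Me + 1)) : ℝ) → q ∣ L) ∧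
          ∀ T : ℕ, (t : ℝ) ^ ε ≤ T → (T : ℝ) ≤ (G t) ^ (1 / (3 * (Me + 1)) : ℝ) → R T (md L fun k => z (e k))) ∧
    (∀ (b : ℝ) (g : ι → ℕ → ℕ) (c : ι → ℕ → ℝ), 1 < b → (∀ i, ∀ᶠ t in atTop, G t ≤ b ^ g i t) →
      ∀ᵐ ξ : ι → ℝ, (∀ i, b < ξ i) → ∀ᶠ t in atTop, ∀ z : ι → ℤ,
        (∀ i, |(z i : ℝ) - (ξ i ^ g i t + c i t)| ≤ (t : ℝ) ^ C) →
        ∃ L : ℕ, 0 < L ∧ (∀ q : ℕ, 1 ≤ q → (q : ℝ) ≤ (G t) ^ (1 / (3 * (Me + 1)) : ℝ) → q ∣ L) ∧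
          ∀ T : ℕ, (t : ℝ) ^ ε ≤ T → (T : ℝ) ≤ (G t) ^ (1 / (3 * (Me + 1)) : ℝ) → R T (md L fun k => z (e k))) := by
  obtain ⟨H, hH⟩ : ∃ H : ℕ → ℕ, H = fun t => ⌊(G t) ^ (1 / 3 : ℝ)⌋₊ := ⟨_, rfl⟩
  obtain ⟨L, hL⟩ : ∃ L : ℕ → ℕ, L = fun t => (2 * H t + 1).factorial := ⟨_, rfl⟩
  obtain ⟨X, hX⟩ : ∃ X : ℕ → ℕ, X = fun t : ℕ => ⌈(t : ℝ) ^ C⌉₊ := ⟨_, rfl⟩
  obtain ⟨Y, hY⟩ : ∃ Y : ℕ → ℕ, Y = fun t : ℕ => ⌈(t : ℝ) ^ ε⌉₊ := ⟨_, rfl⟩
  have hcard : Fintype.card ι = d := by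
    rw [← Fintype.card_congr e, Fintype.card_fin]
  have hL0 : ∀ t, 0 < L t := fun t => by rw [hL]; exact Nat.factorial_pos _
  have hLd : ∀ t q : ℕ, 1 ≤ q → q ≤ 2 * H t + 1 → q ∣ L t := fun t q hq1 hq => by
    rw [hL]
    exact Nat.dvd_factorial hq1 hq
  have hsum : Summable fun t : ℕ => 1 / (Y t : ℝ) ^ A * (2 * X t + 1 : ℝ) ^ Fintype.card ι := by
    have h1 : Summable fun t : ℕ => 5 ^ d * (t : ℝ) ^ (-(2 : ℝ)) :=
      (Real.summable_nat_rpow.2 (by norm_num)).mul_left _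
    refine Summable.of_norm_bounded_eventually_nat h1 ?_
    filter_upwards [eventually_ge_atTop 1] with t ht
    have ht1 : (1 : ℝ) ≤ t := by exact_mod_cast ht
    have ht0 : (0 : ℝ) < t := by linarith
    rw [Real.norm_of_nonneg (by positivity), hcard]
    have h2 : (t : ℝ) ^ ε ≤ Y t := by rw [hY]; exact Nat.le_ceil _
    have h3 : (2 * X t + 1 : ℝ) ≤ 5 * (t : ℝ) ^ C := by
      have h4 : (X t : ℝ) < (t : ℝ) ^ C + 1 := by
        rw [hX]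
        exact Nat.ceil_lt_add_one (by positivity)
      have h5 : (1 : ℝ) ≤ (t : ℝ) ^ C := Real.one_le_rpow ht1 hC
      linarith
    have h4 : 1 / (Y t : ℝ) ^ A ≤ (t : ℝ) ^ (-(ε * A)) := by
      rw [Real.rpow_neg ht0.le, ← one_div, Real.rpow_mul ht0.le, Real.rpow_natCast]
      exact one_div_le_one_div_of_le (by positivity) (pow_le_pow_left₀ (by positivity) h2 A)
    calc 1 / (Y t : ℝ) ^ A * (2 * X t + 1 : ℝ) ^ d ≤ (t : ℝ) ^ (-(ε * A)) * (5 * (t : ℝ) ^ C) ^ d := by gcongr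
      _ = 5 ^ d * ((t : ℝ) ^ (-(ε * A)) * (t : ℝ) ^ (C * d)) := by
          rw [mul_pow, ← Real.rpow_natCast ((t : ℝ) ^ C), ← Real.rpow_mul ht0.le]
          ring
      _ = 5 ^ d * (t : ℝ) ^ (-(ε * A) + C * d) := by rw [Real.rpow_add ht0]
      _ ≤ 5 ^ d * (t : ℝ) ^ (-(2 : ℝ)) := by
          apply mul_le_mul_of_nonneg_left _ (by positivity)
          exact Real.rpow_le_rpow_of_exponent_le ht1 (by linarith)
  have hYt : ∀ᶠ t in atTop, y₁ ≤ Y t := by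
    have h1 : Tendsto (fun t : ℕ => (t : ℝ) ^ ε) atTop atTop :=
      (tendsto_rpow_atTop hε).comp tendsto_natCast_atTop_atTop
    filter_upwards [h1.eventually (eventually_ge_atTop (y₁ : ℝ))] with t ht
    have : (y₁ : ℝ) ≤ Y t := by
      rw [hY]
      exact ht.trans (Nat.le_ceil _)
    exact_mod_cast this
  obtain ⟨Bad, hBad⟩ : ∃ Bad : ℕ → (ι → ℤ) → Prop, Bad = fun (t : ℕ) z => ¬ ∀ T : ℕ, (t : ℝ) ^ ε ≤ T → T ^ Me ≤ 2 * H t + 1 → R T (md (L t) fun k => z (e k)) := ⟨_, rfl⟩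
  have hmain := everyW (ι := ι) G hG Bad (fun t : ℕ => 1 / (Y t : ℝ) ^ A) X hsum (by
      filter_upwards [hYt] with t ht
      refine Or.inr fun S x hw => ?_
      have hw1 : Well S (fun n k => x n (e k)) (H t) := by
        rw [hH]
        exact well_equiv e hw
      have hw2 := well_md hw1 (hL0 t) (hLd t)
      refine le_trans ?_ (heng S (fun n => md (L t) fun k => x n (e k)) (H t) (Y t) hw2 ht
        (fun m => ∀ T : ℕ, (t : ℝ) ^ ε ≤ T → T ^ Me ≤ 2 * H t + 1 → R T m) fun m hm T hT1 hT2 => hm T (by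
          rw [hY]
          exact Nat.ceil_le.2 hT1) hT2)
      apply Nat.cast_le.2
      apply card_le_card
      intro k hk
      rw [mem_filter] at hk ⊢
      rw [hBad] at hk
      exact hk)
  rw [hBad] at hmain
  have hconv : ∀ᶠ t : ℕ in atTop, ∀ z : ι → ℤ,
      (¬ ¬ ∀ T : ℕ, (t : ℝ) ^ ε ≤ T → T ^ Me ≤ 2 * H t + 1 → R T (md (L t) fun k => z (e k))) →
      ∃ L : ℕ, 0 < L ∧ (∀ q : ℕ, 1 ≤ q → (q : ℝ) ≤ (G t) ^ (1 / (3 * (Me + 1)) : ℝ) → q ∣ L) ∧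
          ∀ T : ℕ, (t : ℝ) ^ ε ≤ T → (T : ℝ) ≤ (G t) ^ (1 / (3 * (Me + 1)) : ℝ) → R T (md L fun k => z (e k)) := by
    filter_upwards [hG.eventually (eventually_ge_atTop 1)] with t ht z hz
    have hpow : ∀ T : ℕ, 1 ≤ T → (T : ℝ) ≤ (G t) ^ (1 / (3 * (Me + 1)) : ℝ) → T ^ Me ≤ 2 * H t + 1 ∧ T ≤ 2 * H t + 1 := by
      intro T hT1 hT2
      have hT1r : (1 : ℝ) ≤ T := by exact_mod_cast hT1
      have h1 : (T : ℝ) ^ (Me + 1) ≤ (G t) ^ (1 / 3 : ℝ) := by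
        calc (T : ℝ) ^ (Me + 1) ≤ ((G t) ^ (1 / (3 * (Me + 1)) : ℝ)) ^ (Me + 1) := pow_le_pow_left₀ (by positivity) hT2 _
          _ = (G t) ^ (1 / 3 : ℝ) := by
              rw [← Real.rpow_natCast, ← Real.rpow_mul (by linarith)]
              congr 1
              push_cast
              field_simp
      have h2 : (G t) ^ (1 / 3 : ℝ) < H t + 1 := by
        rw [hH]
        exact Nat.lt_floor_add_one _
      have h3 : (T : ℝ) ^ Me ≤ (T : ℝ) ^ (Me + 1) := pow_le_pow_right₀ hT1r (by omega)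
      have h3' : (T : ℝ) ^ 1 ≤ (T : ℝ) ^ (Me + 1) := pow_le_pow_right₀ hT1r (by omega)
      rw [pow_one] at h3'
      have hH0 : (0 : ℝ) ≤ H t := Nat.cast_nonneg _
      constructor
      · have h5 : (T : ℝ) ^ Me ≤ ((2 * H t + 1 : ℕ) : ℝ) := by
          push_cast
          linarith
        exact_mod_cast h5
      · have h5 : (T : ℝ) ≤ ((2 * H t + 1 : ℕ) : ℝ) := by
          push_cast
          linarith
        exact_mod_cast h5
    refine ⟨L t, hL0 t, fun q hq1 hq => hLd t q hq1 (hpow q hq1 hq).2, fun T hT1 hT2 => ?_⟩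
    rcases Nat.eq_zero_or_pos T with h0 | h0
    · subst h0
      refine not_not.1 hz 0 hT1 ?_
      rcases Nat.eq_zero_or_pos Me with hMe | hMe
      · rw [hMe, pow_zero]
        omega
      · rw [zero_pow hMe.ne']
        omega
    · exact not_not.1 hz T hT1 (hpow T h0 hT2).1
  have hwin : ∀ t : ℕ, (t : ℝ) ^ C ≤ X t := fun t => by
    rw [hX]
    exact Nat.le_ceil _
  obtain ⟨k1, k2, k3⟩ := hmain
  refine ⟨fun u v F hF => ?_, fun g c hg => ?_, fun b g c hb hg => ?_⟩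
  · filter_upwards [k1 u v F hF] with ξ hξ hξ2
    filter_upwards [hξ hξ2, hconv] with t ht1 ht2 z hz
    exact ht2 z (ht1 z fun i => (hz i).trans (hwin t))
  · filter_upwards [k2 g c hg] with ξ hξ
    filter_upwards [hξ, hconv] with t ht1 ht2 z hz
    exact ht2 z (ht1 z fun i => (hz i).trans (hwin t))
  · filter_upwards [k3 b g c hb hg] with ξ hξ hξ2
    filter_upwards [hξ hξ2, hconv] with t ht1 ht2 z hz
    exact ht2 z (ht1 z fun i => (hz i).trans (hwin t))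

end

end Pool.Agent.Helper94.BC
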