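import Mathlib

set_option autoImplicit false

/-! The distribution of the integer parts of a convex function of large slope in the residue classes
modulo `q`. -/

namespace Pool.Agent.Helper94.BC

open Finset MeasureTheory

section comb

lemma sum_blocks (q K : ℕ) (g : ℕ → ℝ) :
    ∑ j ∈ range (K * q), g j = ∑ s ∈ range q, ∑ i ∈ range K, g (i * q + s) := by
  induction K with
  | zero => simp
  | succ K ih =>
    rw [Nat.succ_mul, sum_range_add, ih, ← sum_add_distrib]
    refine sum_congr rfl fun s _ => ?_
    rw [sum_range_succ]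

lemma sum_class (q K r : ℕ) (hr : r < q) (g : ℕ → ℝ) :
    ∑ j ∈ (range (K * q)).filter (fun j => j % q = r), g j = ∑ i ∈ range K, g (i * q + r) := by
  rw [sum_filter, sum_blocks, sum_comm]
  refine sum_congr rfl fun i _ => ?_
  rw [sum_eq_single r]
  · rw [if_pos]
    rw [Nat.add_comm, Nat.add_mul_mod_self_right, Nat.mod_eq_of_lt hr]
  · intro s hs hsr
    rw [mem_range] at hs
    rw [if_neg]
    rw [Nat.add_comm, Nat.add_mul_mod_self_right, Nat.mod_eq_of_lt hs]
    exact hsr
  · intro h
    exact absurd (mem_range.2 hr) h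

/-- sums of an antitone function over the residue classes -/
lemma antitone_class (q n r : ℕ) (hr : r < q) (f : ℕ → ℝ) (hf : Antitone f) (hn : ∀ j, n ≤ j → f j = 0) :
    |∑ j ∈ (range n).filter (fun j => j % q = r), f j - (∑ j ∈ range n, f j) / q| ≤ f 0 := by
  have hq : 0 < q := by omega
  have hqr : (0 : ℝ) < q := by exact_mod_cast hq
  have h0 : ∀ j, 0 ≤ f j := fun j => by
    rw [← hn (max j n) (le_max_right _ _)]
    exact hf (le_max_left _ _)
  -- the sums over the classes
  obtain ⟨S, hS⟩ : ∃ S : ℕ → ℝ, S = fun s => ∑ i ∈ range (n + 1), f (i * q + s) := ⟨_, rfl⟩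
  have hle : n ≤ (n + 1) * q := by nlinarith
  have hsub : range n ⊆ range ((n + 1) * q) := range_subset_range.2 hle
  have e1 : ∑ j ∈ range n, f j = ∑ s ∈ range q, S s := by
    rw [hS, ← sum_blocks]
    apply sum_subset hsub
    intro j _ hj
    exact hn j (by rw [mem_range] at hj; omega)
  have e2 : ∑ j ∈ (range n).filter (fun j => j % q = r), f j = S r := by
    rw [hS]
    beta_reduce
    rw [← sum_class q (n + 1) r hr]
    apply sum_subset (filter_subset_filter _ hsub)
    intro j hj1 hj2
    rw [mem_filter] at hj1 hj2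
    apply hn j
    by_contra hcon
    exact hj2 ⟨mem_range.2 (by omega), hj1.2⟩
  have hmono : ∀ s t, s ≤ t → t < q → S t ≤ S s ∧ S s ≤ f 0 + S t := by
    intro s t hst ht
    rw [hS]
    beta_reduce
    constructor
    · exact sum_le_sum fun i _ => hf (by omega)
    · rw [sum_range_succ', add_comm]
      apply add_le_add (hf (Nat.zero_le _))
      have h1 : ∑ i ∈ range n, f ((i + 1) * q + s) ≤ ∑ i ∈ range n, f (i * q + t) :=
        sum_le_sum fun i _ => hf (by nlinarith)
      refine h1.trans ?_
      rw [sum_range_succ]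
      linarith [h0 (n * q + t)]
  have hdiff : ∀ s ∈ range q, |S r - S s| ≤ f 0 := by
    intro s hs
    rw [mem_range] at hs
    rw [abs_le]
    rcases le_total r s with h | h
    · obtain ⟨h1, h2⟩ := hmono r s h hs
      constructor <;> linarith [h0 0]
    · obtain ⟨h1, h2⟩ := hmono s r h hr
      constructor <;> linarith [h0 0]
  rw [e1, e2]
  have e3 : S r - (∑ s ∈ range q, S s) / q = (∑ s ∈ range q, (S r - S s)) / q := by
    rw [sum_sub_distrib, sum_const, card_range, nsmul_eq_mul]
    field_simp
  rw [e3, abs_div, abs_of_pos hqr, div_le_iff₀ hqr]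
  refine (abs_sum_le_sum_abs _ _).trans ((sum_le_sum hdiff).trans ?_)
  rw [sum_const, card_range, nsmul_eq_mul]
  linarith

/-- the same for the residue classes of `a + j` in `ZMod q` -/
lemma antitone_zmod (q n : ℕ) (hq : 0 < q) (a : ℤ) (ρ : ZMod q) (f : ℕ → ℝ) (hf : Antitone f)
    (hn : ∀ j, n ≤ j → f j = 0) [DecidablePred fun j : ℕ => ((a + (j : ℤ) : ℤ) : ZMod q) = ρ] :
    |∑ j ∈ (range n).filter (fun j : ℕ => ((a + (j : ℤ) : ℤ) : ZMod q) = ρ), f j - (∑ j ∈ range n, f j) / q| ≤ f 0 := by
  have : NeZero q := ⟨hq.ne'⟩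
  have h := antitone_class q n (ρ - (a : ZMod q)).val (ZMod.val_lt _) f hf hn
  have e : (range n).filter (fun j : ℕ => ((a + (j : ℤ) : ℤ) : ZMod q) = ρ) =
      (range n).filter (fun j => j % q = (ρ - (a : ZMod q)).val) := by
    apply filter_congr
    intro j _
    push_cast
    constructor
    · intro h1
      have h2 : (j : ZMod q) = ρ - (a : ZMod q) := by rw [← h1]; ring
      rw [← h2, ZMod.val_natCast]
    · intro h1
      have h2 : (j : ZMod q) = ρ - (a : ZMod q) := by
        rw [← ZMod.natCast_mod, h1, ZMod.natCast_val, ZMod.cast_id]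
      rw [h2]
      ring
  rw [e]
  exact h

end comb

/-- A continuous convex function on `[u, v]` which increases at least with the slope `G`. -/
structure Cvx (u v G : ℝ) (F : ℝ → ℝ) : Prop where
  cont : Continuous F
  cvx : ConvexOn ℝ (Set.Icc u v) F
  grow : ∀ x y, u ≤ x → x ≤ y → y ≤ v → G * (y - x) ≤ F y - F x

/-- the set of the `x` in `(u, v]` with `⌊F x⌋` in a residue class -/
def cls (u v : ℝ) (F : ℝ → ℝ) (q : ℕ) (ρ : ZMod q) : Set ℝ :=
  {x | x ∈ Set.Ioc u v ∧ ((⌊F x⌋ : ℤ) : ZMod q) = ρ}

lemma vol_le {u v : ℝ} (huv : u ≤ v) (F : ℝ → ℝ) (q : ℕ) (ρ : ZMod q) :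
    (volume (cls u v F q ρ)).toReal ≤ v - u := by
  have h1 : volume (cls u v F q ρ) ≤ ENNReal.ofReal (v - u) := by
    rw [← Real.volume_Ioc]
    exact measure_mono fun x hx => hx.1
  exact ENNReal.toReal_le_of_le_ofReal (by linarith) h1

theorem dist {u v G : ℝ} {F : ℝ → ℝ} (huv : u ≤ v) (hG : 0 < G) (hF : Cvx u v G F) (q : ℕ) (hq : 0 < q)
    (ρ : ZMod q) : |(volume (cls u v F q ρ)).toReal - (v - u) / q| ≤ 3 / G := by
  classical
  have hqr : (1 : ℝ) ≤ q := by exact_mod_cast hq
  have hvu : 0 ≤ v - u := by linarith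
  have hdiv : (v - u) / q ≤ v - u := div_le_self hvu hqr
  have hdiv0 : 0 ≤ (v - u) / q := by positivity
  have hvol0 : 0 ≤ (volume (cls u v F q ρ)).toReal := ENNReal.toReal_nonneg
  have hvol1 := vol_le huv F q ρ
  have hmono : ∀ x y, u ≤ x → x ≤ y → y ≤ v → F x ≤ F y := fun x y h1 h2 h3 => by
    have h4 := hF.grow x y h1 h2 h3
    have : 0 ≤ G * (y - x) := mul_nonneg hG.le (by linarith)
    linarith
  have hlt : ∀ x y, x ∈ Set.Icc u v → y ∈ Set.Icc u v → F x < F y → x < y := fun x y hx hy h => by
    by_contra hcon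
    push Not at hcon
    have := hmono y x hy.1 hcon hx.2
    linarith
  by_cases hab : ⌈F u⌉ ≤ ⌊F v⌋
  · obtain ⟨n, hn⟩ : ∃ n : ℕ, ⌊F v⌋ = ⌈F u⌉ + n := by
      obtain ⟨n, hn⟩ := Int.eq_ofNat_of_zero_le (sub_nonneg.2 hab)
      exact ⟨n, by omega⟩
    obtain ⟨a, ha⟩ : ∃ a, a = ⌈F u⌉ := ⟨_, rfl⟩
    rw [← ha] at hn hab
    -- the points with integral values
    have hpt : ∀ j : ℕ, ∃ x, j ≤ n → x ∈ Set.Icc u v ∧ F x = a + j := by
      intro j
      by_cases hj : j ≤ n
      · have h1 : ((a : ℝ) + j) ∈ Set.Icc (F u) (F v) := by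
          constructor
          · have h2 := Int.le_ceil (F u)
            rw [← ha] at h2
            have : (0 : ℝ) ≤ j := Nat.cast_nonneg _
            linarith
          · have h2 := Int.floor_le (F v)
            rw [hn] at h2
            push_cast at h2
            have : (j : ℝ) ≤ n := by exact_mod_cast hj
            linarith
        obtain ⟨x, hx, hx2⟩ := intermediate_value_Icc huv hF.cont.continuousOn h1
        exact ⟨x, fun _ => ⟨hx, hx2⟩⟩
      · exact ⟨0, fun h => absurd h hj⟩
    choose X hX using hpt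
    have hXlt : ∀ i j, i < j → j ≤ n → X i < X j := fun i j hij hj => by
      apply hlt _ _ (hX i (by omega)).1 (hX j hj).1
      rw [(hX i (by omega)).2, (hX j hj).2]
      have : (i : ℝ) < j := by exact_mod_cast hij
      linarith
    have hXle : ∀ i j, i ≤ j → j ≤ n → X i ≤ X j := fun i j hij hj => by
      rcases hij.lt_or_eq with h | h
      · exact (hXlt i j h hj).le
      · rw [h]
    -- the lengths
    obtain ⟨f, hf⟩ : ∃ f : ℕ → ℝ, f = fun j => if j < n then X (j + 1) - X j else 0 := ⟨_, rfl⟩
    have hfpos : ∀ j, 0 ≤ f j := by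
      intro j
      rw [hf]
      beta_reduce
      split_ifs with h
      · linarith [hXlt j (j + 1) (by omega) (by omega)]
      · exact le_rfl
    have hf1 : ∀ j, f j ≤ 1 / G := by
      intro j
      rw [hf]
      beta_reduce
      split_ifs with h
      · have h1 := hF.grow (X j) (X (j + 1)) (hX j (by omega)).1.1 (hXlt j (j + 1) (by omega) (by omega)).le
          (hX (j + 1) (by omega)).1.2
        rw [(hX j (by omega)).2, (hX (j + 1) (by omega)).2] at h1
        push_cast at h1
        rw [le_div_iff₀ hG]
        linarith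
      · positivity
    have hanti : Antitone f := by
      apply antitone_nat_of_succ_le
      intro j
      by_cases h : j + 1 < n
      · rw [hf]
        beta_reduce
        rw [if_pos h, if_pos (by omega : j < n)]
        have h1 := hXlt j (j + 1) (by omega) (by omega)
        have h2 := hXlt (j + 1) (j + 1 + 1) (by omega) (by omega)
        have h3 := hF.cvx.slope_mono_adjacent (hX j (by omega)).1 (hX (j + 1 + 1) (by omega)).1 h1 h2
        rw [(hX j (by omega)).2, (hX (j + 1) (by omega)).2, (hX (j + 1 + 1) (by omega)).2,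
          div_le_div_iff₀ (by linarith) (by linarith)] at h3
        push_cast at h3
        linarith
      · have : f (j + 1) = 0 := by
          rw [hf]
          beta_reduce
          rw [if_neg h]
        rw [this]
        exact hfpos j
    have hcomb := antitone_zmod q n hq a ρ f hanti (fun j hj => by
      rw [hf]
      beta_reduce
      rw [if_neg (by omega)])
    have hsum : ∑ j ∈ range n, f j = X n - X 0 := by
      rw [← sum_range_sub X n]
      refine sum_congr rfl fun j hj => ?_
      rw [mem_range] at hj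
      rw [hf]
      beta_reduce
      rw [if_pos hj]
    have hX0 : 0 ≤ X 0 - u ∧ X 0 - u ≤ 1 / G := by
      have h0 := hX 0 (Nat.zero_le _)
      refine ⟨by linarith [h0.1.1], ?_⟩
      have h1 := hF.grow u (X 0) le_rfl h0.1.1 h0.1.2
      rw [h0.2] at h1
      have h2 := Int.ceil_lt_add_one (F u)
      rw [← ha] at h2
      rw [le_div_iff₀ hG]
      push_cast at h1
      linarith
    have hXn : 0 ≤ v - X n ∧ v - X n ≤ 1 / G := by
      have h0 := hX n le_rfl
      refine ⟨by linarith [h0.1.2], ?_⟩
      have h1 := hF.grow (X n) v h0.1.1 h0.1.2 le_rfl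
      rw [h0.2] at h1
      have h2 := Int.lt_floor_add_one (F v)
      rw [hn] at h2
      push_cast at h2
      rw [le_div_iff₀ hG]
      linarith
    obtain ⟨J, hJ⟩ : ∃ J : Finset ℕ, J = (range n).filter (fun j : ℕ => ((a + (j : ℤ) : ℤ) : ZMod q) = ρ) := ⟨_, rfl⟩
    rw [← hJ] at hcomb
    -- the floor on the intervals
    have hfloor : ∀ j, j < n → ∀ x, X j ≤ x → x < X (j + 1) → ⌊F x⌋ = a + j := by
      intro j hj x hx1 hx2
      have h0 := hX j (by omega)
      have h1 := hX (j + 1) (by omega)
      rw [Int.floor_eq_iff]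
      push_cast
      constructor
      · have := hmono (X j) x h0.1.1 hx1 (by linarith [h1.1.2])
        linarith [h0.2]
      · have h2 := hF.grow x (X (j + 1)) (by linarith [h0.1.1]) hx2.le h1.1.2
        have h3 : 0 < G * (X (j + 1) - x) := mul_pos hG (by linarith)
        have h4 := h1.2
        push_cast at h4
        linarith
    -- the lower bound
    have hlow : ∑ j ∈ J, f j ≤ (volume (cls u v F q ρ)).toReal := by
      have hsub : (⋃ j ∈ J, Set.Ioo (X j) (X (j + 1))) ⊆ cls u v F q ρ := by
        intro x hx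
        simp only [Set.mem_iUnion] at hx
        obtain ⟨j, hj, hx1, hx2⟩ := hx
        rw [hJ, mem_filter, mem_range] at hj
        refine ⟨⟨?_, ?_⟩, ?_⟩
        · linarith [(hX j (by omega)).1.1]
        · linarith [(hX (j + 1) (by omega)).1.2]
        · rw [hfloor j hj.1 x hx1.le hx2]
          exact hj.2
      have hdisj : (J : Set ℕ).PairwiseDisjoint (fun j => Set.Ioo (X j) (X (j + 1))) := by
        intro i hi j hj hij
        rw [hJ, Finset.mem_coe, mem_filter, mem_range] at hi hj
        rw [Function.onFun, Set.disjoint_left]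
        rintro x ⟨hx1, hx2⟩ ⟨hx3, hx4⟩
        rcases lt_or_gt_of_ne hij with h | h
        · have := hXle (i + 1) j h (by omega)
          linarith
        · have := hXle (j + 1) i h (by omega)
          linarith
      have h1 : volume (⋃ j ∈ J, Set.Ioo (X j) (X (j + 1))) = ∑ j ∈ J, ENNReal.ofReal (f j) := by
        rw [measure_biUnion_finset hdisj fun j _ => measurableSet_Ioo]
        refine sum_congr rfl fun j hj => ?_
        rw [hJ, mem_filter, mem_range] at hj
        rw [Real.volume_Ioo, hf]
        beta_reduce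
        rw [if_pos hj.1]
      have h2 : ENNReal.ofReal (∑ j ∈ J, f j) ≤ volume (cls u v F q ρ) := by
        rw [ENNReal.ofReal_sum_of_nonneg fun j _ => hfpos j, ← h1]
        exact measure_mono hsub
      have hfin : volume (cls u v F q ρ) ≠ ⊤ := by
        refine ne_top_of_le_ne_top (b := volume (Set.Ioc u v)) ?_ (measure_mono fun x hx => hx.1)
        rw [Real.volume_Ioc]
        exact ENNReal.ofReal_ne_top
      exact (ENNReal.ofReal_le_iff_le_toReal hfin).1 h2
    -- the upper bound
    have hup : (volume (cls u v F q ρ)).toReal ≤ ∑ j ∈ J, f j + (X 0 - u) + (v - X n) := by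
      have hsub : cls u v F q ρ ⊆ (⋃ j ∈ J, Set.Icc (X j) (X (j + 1))) ∪ Set.Icc u (X 0) ∪ Set.Icc (X n) v := by
        rintro x ⟨⟨hx1, hx2⟩, hx3⟩
        by_cases h1 : x ≤ X 0
        · exact Or.inl (Or.inr ⟨hx1.le, h1⟩)
        · by_cases h2 : X n ≤ x
          · exact Or.inr ⟨h2, hx2⟩
          · push Not at h1 h2
            refine Or.inl (Or.inl ?_)
            -- the interval of `x`
            have hex : ∃ j, j < n ∧ X j ≤ x ∧ x < X (j + 1) := by
              have hP : ∃ j, j ≤ n ∧ x < X j := ⟨n, le_rfl, h2⟩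
              obtain ⟨h3, h4⟩ := Nat.find_spec hP
              obtain ⟨j, hj⟩ : ∃ j, Nat.find hP = j + 1 := by
                apply Nat.exists_eq_add_one_of_ne_zero
                intro h5
                rw [h5] at h4
                linarith
              rw [hj] at h3 h4
              refine ⟨j, by omega, ?_, h4⟩
              have h6 := Nat.find_min hP (m := j) (by omega)
              push Not at h6
              exact h6 (by omega)
            obtain ⟨j, hj, hj1, hj2⟩ := hex
            simp only [Set.mem_iUnion]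
            refine ⟨j, ?_, hj1, hj2.le⟩
            rw [hJ, mem_filter, mem_range]
            refine ⟨hj, ?_⟩
            rw [← hfloor j hj x hj1 hj2]
            exact hx3
      have h1 : volume (cls u v F q ρ) ≤ ENNReal.ofReal (∑ j ∈ J, f j + (X 0 - u) + (v - X n)) := by
        rw [ENNReal.ofReal_add (add_nonneg (sum_nonneg fun j _ => hfpos j) hX0.1) hXn.1,
          ENNReal.ofReal_add (sum_nonneg fun j _ => hfpos j) hX0.1,
          ENNReal.ofReal_sum_of_nonneg fun j _ => hfpos j]
        refine (measure_mono hsub).trans ((measure_union_le _ _).trans ?_)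
        apply add_le_add
        · refine (measure_union_le _ _).trans (add_le_add ?_ ?_)
          · refine (measure_biUnion_finset_le _ _).trans (sum_le_sum fun j hj => ?_)
            rw [hJ, mem_filter, mem_range] at hj
            rw [Real.volume_Icc, hf]
            beta_reduce
            rw [if_pos hj.1]
          · rw [Real.volume_Icc]
        · rw [Real.volume_Icc]
      exact ENNReal.toReal_le_of_le_ofReal (by
        have := sum_nonneg fun j (_ : j ∈ J) => hfpos j
        linarith [hX0.1, hXn.1]) h1
    rw [hsum] at hcomb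
    have hfz := hf1 0
    have e3 : 3 / G = 1 / G + 1 / G + 1 / G := by ring
    rw [e3]
    rw [abs_le] at hcomb ⊢
    have hA : (X n - X 0) / q ≤ (v - u) / q := by
      apply div_le_div_of_nonneg_right _ (by linarith)
      linarith [hX0.1, hXn.1]
    have hB : (v - u) / q ≤ (X n - X 0) / q + 1 / G + 1 / G := by
      have e4 : (v - u) / q = (X n - X 0) / q + (X 0 - u) / q + (v - X n) / q := by ring
      have h5 : (X 0 - u) / q ≤ X 0 - u := div_le_self hX0.1 hqr
      have h6 : (v - X n) / q ≤ v - X n := div_le_self hXn.1 hqr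
      linarith [hX0.2, hXn.2]
    constructor
    · linarith [hcomb.1]
    · linarith [hcomb.2, hX0.2, hXn.2]
  · push Not at hab
    have h1 : G * (v - u) ≤ 1 := by
      have h2 := hF.grow u v le_rfl huv le_rfl
      have h3 := Int.lt_floor_add_one (F v)
      have h4 := Int.ceil_lt_add_one (F u)
      have h5 : (⌊F v⌋ : ℝ) + 1 ≤ ⌈F u⌉ := by exact_mod_cast hab
      linarith
    have h2 : v - u ≤ 1 / G := by
      rw [le_div_iff₀ hG]
      linarith
    have h3 : 1 / G ≤ 3 / G := by
      apply div_le_div_of_nonneg_right _ hG.le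
      norm_num
    rw [abs_le]
    constructor <;> linarith

end Pool.Agent.Helper94.BC
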