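import Pool.Agent.Helper94.BC.Vec

set_option autoImplicit false

/-! Borel-Cantelli for the integer parts of functions of large slope: for almost all parameters all the
members with large index are good. -/

namespace Pool.Agent.Helper94.BC

open Finset Filter Topology MeasureTheory
open Pool.Agent.N666.TM (Well)

section
variable {ι : Type} [Fintype ι] [DecidableEq ι]

open Classical in
theorem bc {u v : ι → ℝ} {w : ℝ} (hw0 : 0 < w) (hw : ∀ i, w ≤ v i - u i) {F : ι → ℕ → ℝ → ℝ} (G : ℕ → ℝ)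
    (Bad : ℕ → (ι → ℤ) → Prop) (p : ℕ → ℝ) (hp : Summable p)
    (h : ∀ᶠ t in atTop, (∀ z, ¬ Bad t z) ∨ (0 < G t ∧ (∀ i, Cvx (u i) (v i) (G t) (F i t)) ∧
      ∃ H : ℕ, 12 * Fintype.card ι * (2 * H + 1 : ℝ) ^ 2 ≤ G t * w ∧
        ∀ (S : Finset ℕ) (x : ℕ → ι → ℤ), Well S x H → ((S.filter fun n => Bad t (x n)).card : ℝ) ≤ p t * S.card)) :
    ∀ᵐ ξ : ι → ℝ, (∀ i, ξ i ∈ Set.Ioc (u i) (v i)) → ∀ᶠ t in atTop, ¬ Bad t (fun i => ⌊F i t (ξ i)⌋) := by
  obtain ⟨t₀, ht₀⟩ := eventually_atTop.1 h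
  obtain ⟨V, hV⟩ : ∃ V : ℝ, V = ∏ i, (v i - u i) := ⟨_, rfl⟩
  have hV0 : 0 ≤ V := by
    rw [hV]
    exact prod_nonneg fun i _ => by linarith [hw i]
  have h1 : ∀ᵐ ξ : ι → ℝ, ∀ᶠ t in atTop, ξ ∉ (if t₀ ≤ t then {ξ | ξ ∈ bx u v ∧ Bad t (fl (fun i => F i t) ξ)} else ∅) := by
    apply ae_eventually_notMem
    have h2 : ∀ t, volume (if t₀ ≤ t then {ξ | ξ ∈ bx u v ∧ Bad t (fl (fun i => F i t) ξ)} else ∅) ≤
        ENNReal.ofReal (p t * V) := by
      intro t
      split_ifs with ht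
      · rcases ht₀ t ht with h3 | ⟨h3, h4, H, h5, h6⟩
        · have : {ξ | ξ ∈ bx u v ∧ Bad t (fl (fun i => F i t) ξ)} = ∅ := by
            ext ξ
            simp only [Set.mem_ofPred_eq, Set.mem_empty_iff_false, iff_false, not_and]
            exact fun _ => h3 _
          rw [this, measure_empty]
          exact bot_le
        · rw [hV]
          exact meas_le h3 hw0 hw h4 H h5 (Bad t) (p t) h6
      · rw [measure_empty]
        exact bot_le
    exact ne_top_of_le_ne_top (hp.mul_right V).tsum_ofReal_ne_top (ENNReal.tsum_le_tsum h2)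
  filter_upwards [h1] with ξ hξ hξ2
  filter_upwards [hξ, eventually_ge_atTop t₀] with t ht1 ht2 hbad
  rw [if_pos ht2] at ht1
  exact ht1 ⟨hξ2, hbad⟩

lemma cvx_lin (u v g c : ℝ) {G : ℝ} (hG : G ≤ g) : Cvx u v G (fun x => x * g + c) where
  cont := by fun_prop
  cvx := by
    refine ⟨convex_Icc _ _, fun x _ y _ a b _ _ hab => le_of_eq ?_⟩
    simp only [smul_eq_mul]
    linear_combination (-c) * hab
  grow := fun x y _ h _ => by
    have : G * (y - x) ≤ g * (y - x) := mul_le_mul_of_nonneg_right hG (by linarith)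
    linarith

lemma pow_grow (n : ℕ) (b x y : ℝ) (hb : 1 < b) (hn : b ≤ n) (hx : b ≤ x) (hxy : x ≤ y) :
    b ^ n * (y - x) ≤ y ^ n - x ^ n := by
  have h1 : y ^ n - x ^ n = (∑ i ∈ range n, y ^ i * x ^ (n - 1 - i)) * (y - x) := (Commute.all y x).geom_sum₂_mul n |>.symm
  rw [h1]
  apply mul_le_mul_of_nonneg_right _ (by linarith)
  have h2 : ∀ i ∈ range n, b ^ (n - 1) ≤ y ^ i * x ^ (n - 1 - i) := by
    intro i hi
    rw [mem_range] at hi
    have e : b ^ (n - 1) = b ^ i * b ^ (n - 1 - i) := by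
      rw [← pow_add]
      congr 1
      omega
    rw [e]
    have hb0 : 0 ≤ b := by linarith
    have h3 : b ^ i ≤ y ^ i := pow_le_pow_left₀ hb0 (by linarith) i
    have h4 : b ^ (n - 1 - i) ≤ x ^ (n - 1 - i) := pow_le_pow_left₀ hb0 hx _
    exact mul_le_mul h3 h4 (by positivity) ((by positivity : (0 : ℝ) ≤ b ^ i).trans h3)
  have h5 := sum_le_sum h2
  rw [sum_const, card_range, nsmul_eq_mul] at h5
  refine le_trans ?_ h5
  have hn1 : 1 ≤ n := by
    by_contra hcon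
    have : n = 0 := by omega
    rw [this, Nat.cast_zero] at hn
    linarith
  have e2 : b ^ n = b * b ^ (n - 1) := by
    rw [← pow_succ']
    congr 1
    omega
  rw [e2]
  exact mul_le_mul_of_nonneg_right hn (by positivity)

lemma cvx_pow (b v : ℝ) (hb : 1 < b) (n : ℕ) (hn : b ≤ n) (c : ℝ) {G : ℝ} (hG : G ≤ b ^ n) :
    Cvx b v G (fun x => x ^ n + c) where
  cont := by fun_prop
  cvx := by
    have h1 : ConvexOn ℝ (Set.Ici 0) (fun x : ℝ => x ^ n) := convexOn_pow n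
    have h2 : ConvexOn ℝ (Set.Icc b v) (fun x : ℝ => x ^ n) :=
      h1.subset (fun x hx => by
        rw [Set.mem_Ici]
        linarith [hx.1]) (convex_Icc _ _)
    exact h2.add_const c
  grow := fun x y h1 h2 _ => by
    have h3 := pow_grow n b x y hb hn h1 h2
    have : G * (y - x) ≤ b ^ n * (y - x) := mul_le_mul_of_nonneg_right hG (by linarith)
    linarith

open Classical in
/-- **The engine.** For almost all parameters all members with large index are good. -/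
theorem every (G : ℕ → ℝ) (hG : Tendsto G atTop atTop)
    (Bad : ℕ → (ι → ℤ) → Prop) (p : ℕ → ℝ) (hp : Summable p)
    (h : ∀ᶠ t in atTop, (∀ z, ¬ Bad t z) ∨ ∀ (S : Finset ℕ) (x : ℕ → ι → ℤ), Well S x ⌊(G t) ^ (1 / 3 : ℝ)⌋₊ →
      ((S.filter fun n => Bad t (x n)).card : ℝ) ≤ p t * S.card) :
    (∀ (u v : ι → ℝ) (F : ι → ℕ → ℝ → ℝ), (∀ i, ∀ᶠ t in atTop, Cvx (u i) (v i) (G t) (F i t)) →
      ∀ᵐ ξ : ι → ℝ, (∀ i, ξ i ∈ Set.Ioc (u i) (v i)) → ∀ᶠ t in atTop, ¬ Bad t (fun i => ⌊F i t (ξ i)⌋)) ∧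
    (∀ g c : ι → ℕ → ℝ, (∀ i, ∀ᶠ t in atTop, G t ≤ g i t) →
      ∀ᵐ ξ : ι → ℝ, ∀ᶠ t in atTop, ¬ Bad t (fun i => ⌊ξ i * g i t + c i t⌋)) ∧
    (∀ (b : ℝ) (g : ι → ℕ → ℕ) (c : ι → ℕ → ℝ), 1 < b → (∀ i, ∀ᶠ t in atTop, G t ≤ b ^ g i t) →
      ∀ᵐ ξ : ι → ℝ, (∀ i, b < ξ i) → ∀ᶠ t in atTop, ¬ Bad t (fun i => ⌊ξ i ^ g i t + c i t⌋)) := by
  have key : ∀ (u v : ι → ℝ) (F : ι → ℕ → ℝ → ℝ), (∀ i, ∀ᶠ t in atTop, Cvx (u i) (v i) (G t) (F i t)) →
      ∀ᵐ ξ : ι → ℝ, (∀ i, ξ i ∈ Set.Ioc (u i) (v i)) → ∀ᶠ t in atTop, ¬ Bad t (fun i => ⌊F i t (ξ i)⌋) := by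
    intro u v F hF
    by_cases huv : ∀ i, u i < v i
    · obtain ⟨w, hw0, hw⟩ : ∃ w : ℝ, 0 < w ∧ ∀ i, w ≤ v i - u i := by
        rcases isEmpty_or_nonempty ι with hι | hι
        · exact ⟨1, one_pos, fun i => isEmptyElim i⟩
        · obtain ⟨i, hi⟩ := Finite.exists_min fun i => v i - u i
          exact ⟨v i - u i, by linarith [huv i], hi⟩
      refine bc hw0 hw G Bad p hp ?_
      have h2 : ∀ᶠ t in atTop, 12 * Fintype.card ι * (2 * ((G t) ^ (1 / 3 : ℝ)) + 1) ^ 2 ≤ G t * w := by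
        have h3 : ∀ᶠ x : ℝ in atTop, 12 * Fintype.card ι * (2 * (x ^ (1 / 3 : ℝ)) + 1) ^ 2 ≤ x * w := by
          have h4 : Tendsto (fun x : ℝ => x ^ (1 / 3 : ℝ)) atTop atTop := tendsto_rpow_atTop (by norm_num)
          filter_upwards [h4.eventually (eventually_ge_atTop (1 + 108 * Fintype.card ι / w)), eventually_gt_atTop 0] with x hx hx0
          obtain ⟨y, hy⟩ : ∃ y, y = x ^ (1 / 3 : ℝ) := ⟨_, rfl⟩
          rw [← hy] at hx ⊢
          have hxy : x = y ^ 3 := by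
            rw [hy, ← Real.rpow_natCast, ← Real.rpow_mul hx0.le]
            norm_num
          have hc : (0 : ℝ) ≤ 108 * Fintype.card ι / w := by positivity
          have hy1 : 1 ≤ y := by linarith
          have h5 : 108 * Fintype.card ι ≤ y * w := by
            have : 108 * Fintype.card ι / w ≤ y := by linarith
            rw [div_le_iff₀ hw0] at this
            exact this
          have hcard : (0 : ℝ) ≤ Fintype.card ι := Nat.cast_nonneg _
          calc 12 * Fintype.card ι * (2 * y + 1) ^ 2 ≤ 12 * Fintype.card ι * (3 * y) ^ 2 := by gcongr; linarith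
            _ = (108 * Fintype.card ι) * y ^ 2 := by ring
            _ ≤ (y * w) * y ^ 2 := mul_le_mul_of_nonneg_right h5 (by positivity)
            _ = y ^ 3 * w := by ring
            _ = x * w := by rw [hxy]
        exact hG.eventually h3
      filter_upwards [h, h2, hG.eventually (eventually_gt_atTop 0), eventually_all.2 hF] with t ht1 ht2 ht3 ht4
      rcases ht1 with ht1 | ht1
      · exact Or.inl ht1
      · refine Or.inr ⟨ht3, ht4, ⌊(G t) ^ (1 / 3 : ℝ)⌋₊, le_trans ?_ ht2, ht1⟩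
        have h5 : ((⌊(G t) ^ (1 / 3 : ℝ)⌋₊ : ℕ) : ℝ) ≤ (G t) ^ (1 / 3 : ℝ) := Nat.floor_le (by positivity)
        gcongr
    · push Not at huv
      obtain ⟨i, hi⟩ := huv
      refine Eventually.of_forall fun ξ hξ => ?_
      have := hξ i
      exact absurd (this.1.trans_le this.2) (not_lt.2 hi)
  refine ⟨key, fun g c hg => ?_, fun b g c hb hg => ?_⟩
  · have h1 : ∀ᵐ ξ : ι → ℝ, ∀ m : ℕ, (∀ i, ξ i ∈ Set.Ioc (-(m : ℝ)) m) →
        ∀ᶠ t in atTop, ¬ Bad t (fun i => ⌊ξ i * g i t + c i t⌋) :=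
      ae_all_iff.2 fun m => key (fun _ => -(m : ℝ)) (fun _ => m) (fun i t x => x * g i t + c i t) fun i => by
        filter_upwards [hg i] with t ht
        exact cvx_lin _ _ _ _ ht
    filter_upwards [h1] with ξ hξ
    obtain ⟨m, hm⟩ := exists_nat_gt (∑ i, |ξ i|)
    refine hξ m fun i => ?_
    have h2 : |ξ i| ≤ ∑ i, |ξ i| := single_le_sum (f := fun i => |ξ i|) (fun _ _ => abs_nonneg _)
      (mem_univ i)
    have h3 := abs_lt.1 (h2.trans_lt hm)
    exact ⟨h3.1, h3.2.le⟩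
  · have h1 : ∀ᵐ ξ : ι → ℝ, ∀ m : ℕ, (∀ i, ξ i ∈ Set.Ioc b m) →
        ∀ᶠ t in atTop, ¬ Bad t (fun i => ⌊ξ i ^ g i t + c i t⌋) :=
      ae_all_iff.2 fun m => key (fun _ => b) (fun _ => m) (fun i t x => x ^ g i t + c i t) fun i => by
        obtain ⟨k, hk⟩ := exists_nat_ge b
        filter_upwards [hg i, hG.eventually (eventually_gt_atTop (b ^ k))] with t ht1 ht2
        have h3 : b ^ k < b ^ g i t := lt_of_lt_of_le ht2 ht1
        have h4 : k < g i t := (pow_lt_pow_iff_right₀ hb).1 h3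
        exact cvx_pow b m hb (g i t) (hk.trans (by exact_mod_cast h4.le)) _ ht1
    filter_upwards [h1] with ξ hξ h
    obtain ⟨m, hm⟩ := exists_nat_gt (∑ i, |ξ i|)
    refine hξ m fun i => ⟨h i, ?_⟩
    have h2 : |ξ i| ≤ ∑ i, |ξ i| := single_le_sum (f := fun i => |ξ i|) (fun _ _ => abs_nonneg _)
      (mem_univ i)
    exact ((le_abs_self _).trans h2).trans hm.le

end

end Pool.Agent.Helper94.BC
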