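import Pool.Agent.Helper94.BC.Win

set_option autoImplicit false

/-! The engine with windows and moduli up to every power `G ^ θ`, `θ < 1 / 2`, of the slope, for exceptional
sets which depend on a level. -/

namespace Pool.Agent.Helper94.BC

open Finset Filter Topology MeasureTheory
open Pool.Agent.N666.TM (Well)
open Pool.Agent.Y722.HS (red)

section
variable {ι : Type} [Fintype ι] [DecidableEq ι]

open Classical in
/-- **The engine**, with moduli up to `G ^ θ`. -/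
theorem everyT {θ : ℝ} (hθ0 : 0 < θ) (hθ : θ < 1 / 2) (G : ℕ → ℝ) (hG : Tendsto G atTop atTop)
    (Bad : ℕ → (ι → ℤ) → Prop) (p : ℕ → ℝ) (hp : Summable p)
    (h : ∀ᶠ t in atTop, (∀ z, ¬ Bad t z) ∨ ∀ (S : Finset ℕ) (x : ℕ → ι → ℤ), Well S x ⌊(G t) ^ θ⌋₊ →
      ((S.filter fun n => Bad t (x n)).card : ℝ) ≤ p t * S.card) :
    (∀ (u v : ι → ℝ) (F : ι → ℕ → ℝ → ℝ), (∀ i, ∀ᶠ t in atTop, Cvx (u i) (v i) (G t) (F i t)) →
      ∀ᵐ ξ : ι → ℝ, (∀ i, ξ i ∈ Set.Ioc (u i) (v i)) → ∀ᶠ t in atTop, ¬ Bad t (fun i => ⌊F i t (ξ i)⌋)) ∧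
    (∀ g c : ι → ℕ → ℝ, (∀ i, ∀ᶠ t in atTop, G t ≤ g i t) →
      ∀ᵐ ξ : ι → ℝ, ∀ᶠ t in atTop, ¬ Bad t (fun i => ⌊ξ i * g i t + c i t⌋)) ∧
    (∀ (b : ℝ) (g : ι → ℕ → ℕ) (c : ι → ℕ → ℝ), 1 < b → (∀ i, ∀ᶠ t in atTop, G t ≤ b ^ g i t) →
      ∀ᵐ ξ : ι → ℝ, (∀ i, b < ξ i) → ∀ᶠ t in atTop, ¬ Bad t (fun i => ⌊ξ i ^ g i t + c i t⌋)) := by
  have key : ∀ (u v : ι → ℝ) (F : ι → ℕ → ℝ → ℝ), (∀ i, ∀ᶠ t in atTop, Cvx (u i) (v i) (G t) (F i t)) →
      ∀ᵐ ξ : ι → ℝ, (∀ i, ξ i ∈ Set.Ioc (u i) (v i)) → ∀ᶠ t in atTop, ¬ Bad t (fun i => ⌊F i t (ξ i)⌋) := by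
    intro u v F hF
    by_cases huv : ∀ i, u i < v i
    · obtain ⟨w, hw0, hw⟩ : ∃ w : ℝ, 0 < w ∧ ∀ i, w ≤ v i - u i := by
        rcases isEmpty_or_nonempty ι with hι | hι
        · exact ⟨1, one_pos, fun i => isEmptyElim i⟩
        · obtain ⟨i, hi⟩ := Finite.exists_min fun i => v i - u i
          exact ⟨v i - u i, by linarith [huv i], hi⟩
      refine bc hw0 hw G Bad p hp ?_
      have h2 : ∀ᶠ t in atTop, 12 * Fintype.card ι * (2 * ((G t) ^ θ) + 1) ^ 2 ≤ G t * w := by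
        have h3 : ∀ᶠ x : ℝ in atTop, 12 * Fintype.card ι * (2 * (x ^ θ) + 1) ^ 2 ≤ x * w := by
          have h4 : Tendsto (fun x : ℝ => x ^ (1 - 2 * θ)) atTop atTop := tendsto_rpow_atTop (by linarith)
          filter_upwards [h4.eventually (eventually_ge_atTop (108 * Fintype.card ι / w)),
            eventually_ge_atTop (1 : ℝ)] with x hx hx1
          have hx0 : 0 < x := by linarith
          have hy1 : 1 ≤ x ^ θ := Real.one_le_rpow hx1 hθ0.le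
          rw [div_le_iff₀ hw0] at hx
          have e1 : x ^ (1 - 2 * θ) * (x ^ θ) ^ 2 = x := by
            rw [← Real.rpow_natCast (x ^ θ) 2, ← Real.rpow_mul hx0.le, ← Real.rpow_add hx0]
            rw [show (1 - 2 * θ + θ * ((2 : ℕ) : ℝ)) = 1 by push_cast; ring, Real.rpow_one]
          have hcard : (0 : ℝ) ≤ Fintype.card ι := Nat.cast_nonneg _
          calc 12 * Fintype.card ι * (2 * x ^ θ + 1) ^ 2 ≤ 12 * Fintype.card ι * (3 * x ^ θ) ^ 2 := by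
                gcongr; linarith
            _ = (108 * Fintype.card ι) * (x ^ θ) ^ 2 := by ring
            _ ≤ (x ^ (1 - 2 * θ) * w) * (x ^ θ) ^ 2 := mul_le_mul_of_nonneg_right hx (by positivity)
            _ = (x ^ (1 - 2 * θ) * (x ^ θ) ^ 2) * w := by ring
            _ = x * w := by rw [e1]
        exact hG.eventually h3
      filter_upwards [h, h2, hG.eventually (eventually_gt_atTop 0), eventually_all.2 hF] with t ht1 ht2 ht3 ht4
      rcases ht1 with ht1 | ht1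
      · exact Or.inl ht1
      · refine Or.inr ⟨ht3, ht4, ⌊(G t) ^ θ⌋₊, le_trans ?_ ht2, ht1⟩
        have h5 : ((⌊(G t) ^ θ⌋₊ : ℕ) : ℝ) ≤ (G t) ^ θ := Nat.floor_le (by positivity)
        gcongr
    · push Not at huv
      obtain ⟨i, hi⟩ := huv
      refine Eventually.of_forall fun ξ hξ => ?_
      have := hξ i
      exact absurd (this.1.trans_le this.2) (not_lt.2 hi)
  refine ⟨key, fun g c hg => ?_, fun b g c hb hg => ?_⟩
  · have h1 : ∀ᵐ ξ : ι → ℝ, ∀ m : ℕ, (∀ i, ξ i ∈ Set.Ioc (-(m : ℝ)) m) →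
        ∀ᶠ t in atTop, ¬ Bad t (fun i => ⌊ξ i * g i t + c i t⌋) :=
      ae_all_iff.2 fun m => key (fun _ => -(m : ℝ)) (fun _ => m) (fun i t x => x * g i t + c i t) fun i => by
        filter_upwards [hg i] with t ht
        exact cvx_lin _ _ _ _ ht
    filter_upwards [h1] with ξ hξ
    obtain ⟨m, hm⟩ := exists_nat_gt (∑ i, |ξ i|)
    refine hξ m fun i => ?_
    have h2 : |ξ i| ≤ ∑ i, |ξ i| := single_le_sum (f := fun i => |ξ i|) (fun _ _ => abs_nonneg _)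
      (mem_univ i)
    have h3 := abs_lt.1 (h2.trans_lt hm)
    exact ⟨h3.1, h3.2.le⟩
  · have h1 : ∀ᵐ ξ : ι → ℝ, ∀ m : ℕ, (∀ i, ξ i ∈ Set.Ioc b m) →
        ∀ᶠ t in atTop, ¬ Bad t (fun i => ⌊ξ i ^ g i t + c i t⌋) :=
      ae_all_iff.2 fun m => key (fun _ => b) (fun _ => m) (fun i t x => x ^ g i t + c i t) fun i => by
        obtain ⟨k, hk⟩ := exists_nat_ge b
        filter_upwards [hg i, hG.eventually (eventually_gt_atTop (b ^ k))] with t ht1 ht2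
        have h3 : b ^ k < b ^ g i t := lt_of_lt_of_le ht2 ht1
        have h4 : k < g i t := (pow_lt_pow_iff_right₀ hb).1 h3
        exact cvx_pow b m hb (g i t) (hk.trans (by exact_mod_cast h4.le)) _ ht1
    filter_upwards [h1] with ξ hξ h
    obtain ⟨m, hm⟩ := exists_nat_gt (∑ i, |ξ i|)
    refine hξ m fun i => ⟨h i, ?_⟩
    have h2 : |ξ i| ≤ ∑ i, |ξ i| := single_le_sum (f := fun i => |ξ i|) (fun _ _ => abs_nonneg _)
      (mem_univ i)
    exact ((le_abs_self _).trans h2).trans hm.le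

open Classical in
/-- The engine with windows. -/
theorem everyTW {θ : ℝ} (hθ0 : 0 < θ) (hθ : θ < 1 / 2) (G : ℕ → ℝ) (hG : Tendsto G atTop atTop)
    (Bad : ℕ → (ι → ℤ) → Prop) (p : ℕ → ℝ) (X : ℕ → ℕ)
    (hp : Summable fun t => p t * (2 * X t + 1 : ℝ) ^ Fintype.card ι)
    (h : ∀ᶠ t in atTop, (∀ z, ¬ Bad t z) ∨ ∀ (S : Finset ℕ) (x : ℕ → ι → ℤ), Well S x ⌊(G t) ^ θ⌋₊ →
      ((S.filter fun n => Bad t (x n)).card : ℝ) ≤ p t * S.card) :
    (∀ (u v : ι → ℝ) (F : ι → ℕ → ℝ → ℝ), (∀ i, ∀ᶠ t in atTop, Cvx (u i) (v i) (G t) (F i t)) →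
      ∀ᵐ ξ : ι → ℝ, (∀ i, ξ i ∈ Set.Ioc (u i) (v i)) → ∀ᶠ t in atTop, ∀ z : ι → ℤ,
        (∀ i, |(z i : ℝ) - F i t (ξ i)| ≤ X t) → ¬ Bad t z) ∧
    (∀ g c : ι → ℕ → ℝ, (∀ i, ∀ᶠ t in atTop, G t ≤ g i t) →
      ∀ᵐ ξ : ι → ℝ, ∀ᶠ t in atTop, ∀ z : ι → ℤ,
        (∀ i, |(z i : ℝ) - (ξ i * g i t + c i t)| ≤ X t) → ¬ Bad t z) ∧
    (∀ (b : ℝ) (g : ι → ℕ → ℕ) (c : ι → ℕ → ℝ), 1 < b → (∀ i, ∀ᶠ t in atTop, G t ≤ b ^ g i t) →
      ∀ᵐ ξ : ι → ℝ, (∀ i, b < ξ i) → ∀ᶠ t in atTop, ∀ z : ι → ℤ,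
        (∀ i, |(z i : ℝ) - (ξ i ^ g i t + c i t)| ≤ X t) → ¬ Bad t z) := by
  have h1 := everyT hθ0 hθ G hG (fun t z => ∃ s : ι → ℤ, (∀ i, |s i| ≤ (X t : ℤ)) ∧ Bad t (fun i => z i + s i))
    (fun t => p t * (2 * X t + 1 : ℝ) ^ Fintype.card ι) hp (by
      filter_upwards [h] with t ht
      rcases ht with ht | ht
      · exact Or.inl fun z ⟨s, _, hs⟩ => ht _ hs
      · refine Or.inr fun S x hw => ?_
        convert win_card hw (Bad t) ht using 2)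
  have h2 : ∀ (t : ℕ) (y : ι → ℝ), (¬ ∃ s : ι → ℤ, (∀ i, |s i| ≤ (X t : ℤ)) ∧ Bad t (fun i => ⌊y i⌋ + s i)) →
      ∀ z : ι → ℤ, (∀ i, |(z i : ℝ) - y i| ≤ X t) → ¬ Bad t z := by
    intro t y hy z hz hbad
    apply hy
    refine ⟨fun i => z i - ⌊y i⌋, fun i => ?_, by simpa using hbad⟩
    have h3 := abs_le.1 (hz i)
    have h4 := Int.floor_le (y i)
    have h5 := Int.lt_floor_add_one (y i)
    beta_reduce
    rw [abs_le]
    constructor
    · have : (-(X t : ℤ) : ℝ) - 1 < ((z i - ⌊y i⌋ : ℤ) : ℝ) := by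
        push_cast
        linarith
      have h6 : -(X t : ℤ) - 1 < z i - ⌊y i⌋ := by exact_mod_cast this
      omega
    · have : ((z i - ⌊y i⌋ : ℤ) : ℝ) < (X t : ℝ) + 1 := by
        push_cast
        linarith
      have h6 : z i - ⌊y i⌋ < (X t : ℤ) + 1 := by exact_mod_cast this
      omega
  obtain ⟨k1, k2, k3⟩ := h1
  refine ⟨fun u v F hF => ?_, fun g c hg => ?_, fun b g c hb hg => ?_⟩
  · filter_upwards [k1 u v F hF] with ξ hξ hξ2
    filter_upwards [hξ hξ2] with t ht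
    exact h2 t _ ht
  · filter_upwards [k2 g c hg] with ξ hξ
    filter_upwards [hξ] with t ht
    exact h2 t _ ht
  · filter_upwards [k3 b g c hb hg] with ξ hξ hξ2
    filter_upwards [hξ hξ2] with t ht
    exact h2 t _ ht

open Classical in
/-- **The engine with levels.** Let for all large `H` a level `L` with `Q H L` be given such that at most
the proportion `H ^ (-τ)` of each family which is well distributed modulo the integers up to `H` is bad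
at the level `L`. Let `G(t) → ∞` and `W(t) ≥ 1` such that the sum of `W(t) ^ n G(t) ^ (-β)` converges for some
`β < τ / 2`. Then there are levels `L(t)` with `Q H (L t)` for some `H ≤ G(t)` such that for almost all
parameters and all large `t` no vector in the windows of length `W(t)` is bad at the level `L(t)`. -/
theorem everyL {τ : ℝ} (hτ : 0 < τ) {H₀ : ℕ} {Q : ℕ → ℕ → Prop} {Bad : ℕ → (ι → ℤ) → Prop}
    (h : ∀ H : ℕ, H₀ ≤ H → ∃ L : ℕ, Q H L ∧ ∀ (S : Finset ℕ) (x : ℕ → ι → ℤ), Well S x H →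
      ((S.filter fun n => Bad L (x n)).card : ℝ) ≤ S.card * (H : ℝ) ^ (-τ))
    {β : ℝ} (hβ : 0 < β) (hβτ : 2 * β < τ) (G W : ℕ → ℝ) (hG : Tendsto G atTop atTop)
    (hW : ∀ t, 1 ≤ W t) (hs : Summable fun t => W t ^ Fintype.card ι * G t ^ (-β)) :
    ∃ L : ℕ → ℕ, (∀ᶠ t in atTop, ∃ H : ℕ, H₀ ≤ H ∧ 1 ≤ H ∧ (H : ℝ) ≤ G t ∧ Q H (L t)) ∧
    (∀ (u v : ι → ℝ) (F : ι → ℕ → ℝ → ℝ), (∀ i, ∀ᶠ t in atTop, Cvx (u i) (v i) (G t) (F i t)) →
      ∀ᵐ ξ : ι → ℝ, (∀ i, ξ i ∈ Set.Ioc (u i) (v i)) → ∀ᶠ t in atTop, ∀ z : ι → ℤ,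
        (∀ i, |(z i : ℝ) - F i t (ξ i)| ≤ W t) → ¬ Bad (L t) z) ∧
    (∀ g c : ι → ℕ → ℝ, (∀ i, ∀ᶠ t in atTop, G t ≤ g i t) →
      ∀ᵐ ξ : ι → ℝ, ∀ᶠ t in atTop, ∀ z : ι → ℤ,
        (∀ i, |(z i : ℝ) - (ξ i * g i t + c i t)| ≤ W t) → ¬ Bad (L t) z) ∧
    (∀ (b : ℝ) (g : ι → ℕ → ℕ) (c : ι → ℕ → ℝ), 1 < b → (∀ i, ∀ᶠ t in atTop, G t ≤ b ^ g i t) →
      ∀ᵐ ξ : ι → ℝ, (∀ i, b < ξ i) → ∀ᶠ t in atTop, ∀ z : ι → ℤ,
        (∀ i, |(z i : ℝ) - (ξ i ^ g i t + c i t)| ≤ W t) → ¬ Bad (L t) z) := by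
  obtain ⟨θ, hθ1, hθ2⟩ : ∃ θ : ℝ, β / τ < θ ∧ θ < 1 / 2 := by
    apply _root_.exists_between
    rw [div_lt_iff₀ hτ]
    linarith
  have hθ0 : 0 < θ := (div_pos hβ hτ).trans hθ1
  have hθτ : β ≤ θ * τ := by
    rw [div_lt_iff₀ hτ] at hθ1
    exact hθ1.le
  obtain ⟨n, hn⟩ : ∃ n : ℕ, n = Fintype.card ι := ⟨_, rfl⟩
  obtain ⟨X, hX⟩ : ∃ X : ℕ → ℕ, X = fun t => ⌈W t⌉₊ := ⟨_, rfl⟩
  obtain ⟨H, hH⟩ : ∃ H : ℕ → ℕ, H = fun t => ⌊(G t) ^ θ⌋₊ := ⟨_, rfl⟩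
  have hev : ∀ᶠ t in atTop, H₀ ≤ H t ∧ 1 ≤ H t ∧ (H t : ℝ) ≤ G t ∧ (H t : ℝ) ^ (-τ) ≤ 2 ^ τ * (G t) ^ (-β) := by
    have h1 : Tendsto (fun x : ℝ => x ^ θ) atTop atTop := tendsto_rpow_atTop hθ0
    filter_upwards [hG.eventually (h1.eventually (eventually_ge_atTop (2 * (H₀ + 2 : ℝ)))),
      hG.eventually (eventually_ge_atTop (1 : ℝ))] with t ht1 ht2
    have hG0 : 0 < G t := by linarith
    have hH0r : (0 : ℝ) ≤ H₀ := Nat.cast_nonneg _
    have hlow : (G t) ^ θ / 2 ≤ H t := by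
      have h5 : (G t) ^ θ < H t + 1 := by
        rw [hH]
        exact Nat.lt_floor_add_one _
      linarith
    have hup : (H t : ℝ) ≤ (G t) ^ θ := by
      rw [hH]
      exact Nat.floor_le (by positivity)
    have hH2 : (H₀ : ℝ) + 1 ≤ H t := by linarith
    refine ⟨?_, ?_, hup.trans ?_, ?_⟩
    · have : (H₀ : ℝ) ≤ H t := by linarith
      exact_mod_cast this
    · have : (1 : ℝ) ≤ H t := by linarith
      exact_mod_cast this
    · calc (G t) ^ θ ≤ (G t) ^ (1 : ℝ) := Real.rpow_le_rpow_of_exponent_le ht2 (by linarith)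
        _ = G t := Real.rpow_one _
    · have h6 : 0 < (G t) ^ θ / 2 := by positivity
      calc (H t : ℝ) ^ (-τ) ≤ ((G t) ^ θ / 2) ^ (-τ) := Real.rpow_le_rpow_of_nonpos h6 hlow (by linarith)
        _ = 2 ^ τ * (G t) ^ (-(θ * τ)) := by
          rw [Real.rpow_neg h6.le, Real.div_rpow (by positivity) (by norm_num), inv_div, Real.rpow_neg hG0.le,
            ← Real.rpow_mul hG0.le, div_eq_mul_inv]
        _ ≤ 2 ^ τ * (G t) ^ (-β) := by
          apply mul_le_mul_of_nonneg_left _ (by positivity)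
          exact Real.rpow_le_rpow_of_exponent_le ht2 (by linarith)
  have hL : ∀ t, ∃ L : ℕ, H₀ ≤ H t → (Q (H t) L ∧ ∀ (S : Finset ℕ) (x : ℕ → ι → ℤ), Well S x (H t) →
      ((S.filter fun n => Bad L (x n)).card : ℝ) ≤ S.card * (H t : ℝ) ^ (-τ)) := by
    intro t
    by_cases ht : H₀ ≤ H t
    · obtain ⟨L, hL⟩ := h (H t) ht
      exact ⟨L, fun _ => hL⟩
    · exact ⟨0, fun h' => absurd h' ht⟩
  choose L hL using hL
  obtain ⟨t₀, ht₀⟩ := eventually_atTop.1 hev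
  have hsum : Summable fun t : ℕ => (if t₀ ≤ t then (H t : ℝ) ^ (-τ) else 0) * (2 * X t + 1 : ℝ) ^ Fintype.card ι := by
    refine Summable.of_norm_bounded_eventually_nat (g := fun t => (2 ^ τ * 5 ^ n) * (W t ^ Fintype.card ι * G t ^ (-β)))
      (hs.mul_left _) ?_
    filter_upwards [eventually_ge_atTop t₀] with t ht
    rw [if_pos ht, Real.norm_of_nonneg (by positivity), ← hn]
    have h6 : (2 * X t + 1 : ℝ) ≤ 5 * W t := by
      have h7 : (X t : ℝ) < W t + 1 := by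
        rw [hX]
        exact Nat.ceil_lt_add_one (by linarith [hW t])
      have h8 := hW t
      linarith
    have h9 := (ht₀ t ht).2.2.2
    have hW0 : 0 ≤ W t := by linarith [hW t]
    calc (H t : ℝ) ^ (-τ) * (2 * X t + 1 : ℝ) ^ n ≤ (2 ^ τ * (G t) ^ (-β)) * (5 * W t) ^ n := by
          have : 0 ≤ (H t : ℝ) ^ (-τ) := by positivity
          have h10 : (0 : ℝ) ≤ 2 * X t + 1 := by positivity
          exact mul_le_mul h9 (pow_le_pow_left₀ h10 h6 n) (by positivity) (this.trans h9)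
      _ = (2 ^ τ * 5 ^ n) * (W t ^ n * G t ^ (-β)) := by ring
  have h1 := everyTW hθ0 hθ2 G hG (fun t z => Bad (L t) z)
    (fun t => if t₀ ≤ t then (H t : ℝ) ^ (-τ) else 0) X hsum (by
      filter_upwards [eventually_ge_atTop t₀] with t ht
      refine Or.inr fun S x hw => ?_
      rw [if_pos ht]
      have h5 := (hL t (ht₀ t ht).1).2 S x (by rw [hH]; exact hw)
      exact h5.trans (le_of_eq (mul_comm _ _)))
  have hXle : ∀ t, W t ≤ X t := fun t => by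
    rw [hX]
    exact Nat.le_ceil _
  obtain ⟨k1, k2, k3⟩ := h1
  refine ⟨L, ?_, fun u v F hF => ?_, fun g c hg => ?_, fun b g c hb hg => ?_⟩
  · filter_upwards [hev] with t ht
    exact ⟨H t, ht.1, ht.2.1, ht.2.2.1, (hL t ht.1).1⟩
  · filter_upwards [k1 u v F hF] with ξ hξ hξ2
    filter_upwards [hξ hξ2] with t ht z hz
    exact ht z fun i => (hz i).trans (hXle t)
  · filter_upwards [k2 g c hg] with ξ hξ
    filter_upwards [hξ] with t ht z hz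
    exact ht z fun i => (hz i).trans (hXle t)
  · filter_upwards [k3 b g c hb hg] with ξ hξ hξ2
    filter_upwards [hξ hξ2] with t ht z hz
    exact ht z fun i => (hz i).trans (hXle t)

end

end Pool.Agent.Helper94.BC
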