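import Pool.Agent.Helper94.BC.Dist
import Pool.Agent.Helper94.BC.Appr

set_option autoImplicit false

/-! The distribution of the vectors of the integer parts of convex functions of independent variables,
and the measure of the set of the parameters with a bad vector. -/

namespace Pool.Agent.Helper94.BC

open Finset Filter Topology MeasureTheory
open Pool.Agent.N666.TM (Well)
open Pool.Agent.Y722.HS (red)

section
variable {ι : Type} [Fintype ι] [DecidableEq ι]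

/-- the integer parts -/
noncomputable def fl (F : ι → ℝ → ℝ) (ξ : ι → ℝ) (i : ι) : ℤ := ⌊F i (ξ i)⌋

/-- the box -/
def bx (u v : ι → ℝ) : Set (ι → ℝ) := {ξ | ∀ i, ξ i ∈ Set.Ioc (u i) (v i)}

omit [DecidableEq ι] in
lemma bx_eq (u v : ι → ℝ) : bx u v = Set.pi Set.univ (fun i => Set.Ioc (u i) (v i)) := by
  ext ξ
  simp [bx]

omit [DecidableEq ι] in
lemma vol_bx {u v : ι → ℝ} (huv : ∀ i, u i ≤ v i) : volume (bx u v) = ENNReal.ofReal (∏ i, (v i - u i)) := by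
  rw [bx_eq, volume_pi_pi, ENNReal.ofReal_prod_of_nonneg fun i _ => by linarith [huv i]]
  exact prod_congr rfl fun i _ => Real.volume_Ioc

omit [DecidableEq ι] in
lemma meas_lvl {u v : ι → ℝ} {F : ι → ℝ → ℝ} (hF : ∀ i, Continuous (F i)) (z : ι → ℤ) :
    MeasurableSet {ξ | ξ ∈ bx u v ∧ fl F ξ = z} := by
  have h1 : {ξ | ξ ∈ bx u v ∧ fl F ξ = z} =
      Set.pi Set.univ (fun i => Set.Ioc (u i) (v i) ∩ (fun x => ⌊F i x⌋) ⁻¹' {z i}) := by
    ext ξ
    simp only [bx, fl, Set.mem_ofPred_eq, Set.mem_pi, Set.mem_univ, true_implies, Set.mem_inter_iff,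
      Set.mem_preimage, Set.mem_singleton_iff, funext_iff]
    exact ⟨fun h i => ⟨h.1 i, h.2 i⟩, fun h => ⟨fun i => (h i).1, fun i => (h i).2⟩⟩
  rw [h1]
  apply MeasurableSet.pi Set.countable_univ
  intro i _
  apply measurableSet_Ioc.inter
  exact (Int.measurable_floor.comp (hF i).measurable) (measurableSet_singleton _)

/-- the sum of the measures of the level sets -/
lemma sum_lvl {u v : ι → ℝ} {F : ι → ℝ → ℝ} {G : ℝ} (hG : 0 < G) (hF : ∀ i, Cvx (u i) (v i) G (F i))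
    (huv : ∀ i, u i ≤ v i) (Q : (ι → ℤ) → Prop) [DecidablePred Q] :
    ∑ z ∈ (Fintype.piFinset fun i => Icc ⌊F i (u i)⌋ ⌊F i (v i)⌋).filter Q, (volume {ξ | ξ ∈ bx u v ∧ fl F ξ = z}).toReal =
      (volume {ξ | ξ ∈ bx u v ∧ Q (fl F ξ)}).toReal := by
  have hmono : ∀ i x y, u i ≤ x → x ≤ y → y ≤ v i → F i x ≤ F i y := fun i x y h1 h2 h3 => by
    have h4 := (hF i).grow x y h1 h2 h3
    have : 0 ≤ G * (y - x) := mul_nonneg hG.le (by linarith)
    linarith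
  have hmem : ∀ ξ ∈ bx u v, fl F ξ ∈ Fintype.piFinset fun i => Icc ⌊F i (u i)⌋ ⌊F i (v i)⌋ := by
    intro ξ hξ
    rw [Fintype.mem_piFinset]
    intro i
    rw [mem_Icc]
    have h := hξ i
    exact ⟨Int.floor_le_floor (hmono i _ _ le_rfl h.1.le h.2), Int.floor_le_floor (hmono i _ _ h.1.le h.2 le_rfl)⟩
  have hset : {ξ | ξ ∈ bx u v ∧ Q (fl F ξ)} =
      ⋃ z ∈ (Fintype.piFinset fun i => Icc ⌊F i (u i)⌋ ⌊F i (v i)⌋).filter Q, {ξ | ξ ∈ bx u v ∧ fl F ξ = z} := by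
    ext ξ
    simp only [Set.mem_ofPred_eq, Set.mem_iUnion, mem_filter, exists_prop]
    constructor
    · rintro ⟨h1, h2⟩
      exact ⟨fl F ξ, ⟨hmem ξ h1, h2⟩, h1, rfl⟩
    · rintro ⟨z, ⟨_, h2⟩, h3, h4⟩
      rw [h4]
      exact ⟨h3, h2⟩
  have hdisj : ((((Fintype.piFinset fun i => Icc ⌊F i (u i)⌋ ⌊F i (v i)⌋).filter Q : Finset (ι → ℤ)) : Set (ι → ℤ))).PairwiseDisjoint
      (fun z => {ξ | ξ ∈ bx u v ∧ fl F ξ = z}) := by
    intro z _ z' _ hzz
    rw [Function.onFun, Set.disjoint_left]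
    rintro ξ ⟨_, h1⟩ ⟨_, h2⟩
    exact hzz (h1.symm.trans h2)
  have hfin : ∀ z, volume {ξ | ξ ∈ bx u v ∧ fl F ξ = z} ≠ ⊤ := fun z => by
    refine ne_top_of_le_ne_top (b := volume (bx u v)) ?_ (measure_mono fun ξ hξ => hξ.1)
    rw [vol_bx huv]
    exact ENNReal.ofReal_ne_top
  rw [hset, measure_biUnion_finset hdisj fun z _ => meas_lvl (fun i => (hF i).cont) z,
    ENNReal.toReal_sum fun z _ => hfin z]

omit [DecidableEq ι] in
/-- the distribution modulo `q` -/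
lemma vec_dist {u v : ι → ℝ} {F : ι → ℝ → ℝ} {G w : ℝ} (hG : 0 < G) (hw0 : 0 < w) (hw : ∀ i, w ≤ v i - u i)
    (hF : ∀ i, Cvx (u i) (v i) G (F i)) (H : ℕ) (hH : 12 * Fintype.card ι * (2 * H + 1 : ℝ) ^ 2 ≤ G * w)
    (q : ℕ) (hq1 : 1 ≤ q) (hq : q ≤ 2 * H + 1) (ρ : ι → ZMod q) :
    |(volume {ξ | ξ ∈ bx u v ∧ red q (fl F ξ) = ρ}).toReal / ∏ i, (v i - u i) - 1 / (q : ℝ) ^ Fintype.card ι| ≤
      1 / 2 * (1 / (2 * H + 1) * (1 / (q : ℝ) ^ Fintype.card ι)) := by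
  have hqr : (1 : ℝ) ≤ q := by exact_mod_cast hq1
  have hq0 : (0 : ℝ) < q := by linarith
  have hqH : (q : ℝ) ≤ 2 * H + 1 := by exact_mod_cast hq
  have hH1 : (1 : ℝ) ≤ 2 * H + 1 := by
    have : (0 : ℝ) ≤ H := Nat.cast_nonneg _
    linarith
  have hset : {ξ | ξ ∈ bx u v ∧ red q (fl F ξ) = ρ} = Set.pi Set.univ (fun i => cls (u i) (v i) (F i) q (ρ i)) := by
    ext ξ
    simp only [bx, fl, cls, red, Set.mem_ofPred_eq, Set.mem_pi, Set.mem_univ, true_implies, funext_iff]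
    exact ⟨fun h i => ⟨h.1 i, h.2 i⟩, fun h => ⟨fun i => (h i).1, fun i => (h i).2⟩⟩
  obtain ⟨A, hA⟩ : ∃ A : ι → ℝ, A = fun i => (volume (cls (u i) (v i) (F i) q (ρ i))).toReal := ⟨_, rfl⟩
  have h1 : (volume {ξ | ξ ∈ bx u v ∧ red q (fl F ξ) = ρ}).toReal = ∏ i, A i := by
    rw [hset, volume_pi_pi, ENNReal.toReal_prod, hA]
  obtain ⟨θ, hθ⟩ : ∃ θ : ι → ℝ, θ = fun i => q * A i / (v i - u i) - 1 := ⟨_, rfl⟩
  have hpos : ∀ i, 0 < v i - u i := fun i => by linarith [hw i]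
  have hθ1 : ∀ i, |θ i| ≤ 3 * q / (G * w) := by
    intro i
    have h2 := dist (by linarith [hpos i]) hG (hF i) q (by omega) (ρ i)
    have e1 : θ i = (A i - (v i - u i) / q) * (q / (v i - u i)) := by
      rw [hθ]
      have := (hpos i).ne'
      field_simp
    rw [e1, abs_mul, abs_of_pos (div_pos hq0 (hpos i))]
    have h3 : |A i - (v i - u i) / q| ≤ 3 / G := by rw [hA]; exact h2
    have h4 : (q : ℝ) / (v i - u i) ≤ q / w := div_le_div_of_nonneg_left hq0.le hw0 (hw i)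
    calc |A i - (v i - u i) / q| * (q / (v i - u i)) ≤ 3 / G * (q / w) :=
          mul_le_mul h3 h4 (div_pos hq0 (hpos i)).le (by positivity)
      _ = _ := by field_simp
  have h5 : (∏ i, A i) / ∏ i, (v i - u i) = 1 / (q : ℝ) ^ Fintype.card ι * ∏ i, (1 + θ i) := by
    rw [← prod_div_distrib]
    have h6 : ∀ i, A i / (v i - u i) = (1 / (q : ℝ)) * (1 + θ i) := by
      intro i
      rw [hθ]
      have := (hpos i).ne'
      field_simp
      ring
    rw [prod_congr rfl fun i _ => h6 i, prod_mul_distrib, prod_const, card_univ, one_div_pow]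
  rw [h1, h5]
  have e2 : 1 / (q : ℝ) ^ Fintype.card ι * ∏ i, (1 + θ i) - 1 / (q : ℝ) ^ Fintype.card ι =
      (∏ i, (1 + θ i) - 1) * (1 / (q : ℝ) ^ Fintype.card ι) := by ring
  rw [e2, abs_mul, abs_of_pos (by positivity : 0 < 1 / (q : ℝ) ^ Fintype.card ι)]
  have h7 := norm_prod_one_add_sub_one_le univ θ
  rw [Real.norm_eq_abs] at h7
  have h8 : ∑ i, ‖θ i‖ ≤ Fintype.card ι * (3 * q / (G * w)) := by
    refine (sum_le_sum fun i _ => hθ1 i).trans ?_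
    rw [sum_const, card_univ, nsmul_eq_mul]
  have hGw : 0 < G * w := by positivity
  have h9 : Fintype.card ι * (3 * q / (G * w)) ≤ 1 / (4 * (2 * H + 1)) := by
    rw [mul_div_assoc', div_le_div_iff₀ hGw (by positivity)]
    have hc : (0 : ℝ) ≤ Fintype.card ι := Nat.cast_nonneg _
    have h10 : Fintype.card ι * (3 * (q : ℝ)) * (4 * (2 * H + 1)) ≤ 12 * Fintype.card ι * (2 * H + 1 : ℝ) ^ 2 := by
      have : Fintype.card ι * (q : ℝ) * (2 * H + 1) ≤ Fintype.card ι * (2 * H + 1) * (2 * H + 1) := by gcongr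
      nlinarith
    linarith
  have h11 : 1 / (4 * (2 * H + 1 : ℝ)) ≤ 1 := by
    rw [div_le_one (by positivity)]
    linarith
  have h12 : Real.exp (∑ i, ‖θ i‖) ≤ Real.exp (1 / (4 * (2 * H + 1))) := Real.exp_le_exp.2 (h8.trans h9)
  have h13 : Real.exp (1 / (4 * (2 * H + 1))) - 1 ≤ 2 * (1 / (4 * (2 * H + 1))) := by
    have := Real.abs_exp_sub_one_le (x := 1 / (4 * (2 * H + 1))) (by rw [abs_of_pos (by positivity)]; exact h11)
    rw [abs_of_pos (by positivity : (0 : ℝ) < 1 / (4 * (2 * H + 1)))] at this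
    exact (le_abs_self _).trans this
  have h14 : |∏ i, (1 + θ i) - 1| ≤ 1 / 2 * (1 / (2 * H + 1)) := by
    have e3 : 2 * (1 / (4 * (2 * H + 1 : ℝ))) = 1 / 2 * (1 / (2 * H + 1)) := by
      field_simp
      norm_num
    linarith
  calc _ ≤ 1 / 2 * (1 / (2 * H + 1)) * (1 / (q : ℝ) ^ Fintype.card ι) :=
        mul_le_mul_of_nonneg_right h14 (by positivity)
    _ = _ := by ring

/-- **The measure of the set of the parameters with a bad vector.** -/
theorem meas_le {u v : ι → ℝ} {F : ι → ℝ → ℝ} {G w : ℝ} (hG : 0 < G) (hw0 : 0 < w) (hw : ∀ i, w ≤ v i - u i)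
    (hF : ∀ i, Cvx (u i) (v i) G (F i)) (H : ℕ) (hH : 12 * Fintype.card ι * (2 * H + 1 : ℝ) ^ 2 ≤ G * w)
    (Bad : (ι → ℤ) → Prop) [DecidablePred Bad] (p : ℝ)
    (hBad : ∀ (S : Finset ℕ) (x : ℕ → ι → ℤ), Well S x H → ((S.filter fun n => Bad (x n)).card : ℝ) ≤ p * S.card) :
    volume {ξ | ξ ∈ bx u v ∧ Bad (fl F ξ)} ≤ ENNReal.ofReal (p * ∏ i, (v i - u i)) := by
  classical
  have hpos : ∀ i, 0 < v i - u i := fun i => by linarith [hw i]
  have huv : ∀ i, u i ≤ v i := fun i => by linarith [hpos i]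
  have hV : 0 < ∏ i, (v i - u i) := prod_pos fun i _ => hpos i
  obtain ⟨Z, hZ⟩ : ∃ Z : Finset (ι → ℤ), Z = Fintype.piFinset fun i => Icc ⌊F i (u i)⌋ ⌊F i (v i)⌋ := ⟨_, rfl⟩
  obtain ⟨W, hW⟩ : ∃ W : (ι → ℤ) → ℝ, W = fun z => (volume {ξ | ξ ∈ bx u v ∧ fl F ξ = z}).toReal / ∏ i, (v i - u i) :=
    ⟨_, rfl⟩
  have hsum : ∀ (Q : (ι → ℤ) → Prop) [DecidablePred Q], ∑ z ∈ Z.filter Q, W z =
      (volume {ξ | ξ ∈ bx u v ∧ Q (fl F ξ)}).toReal / ∏ i, (v i - u i) := by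
    intro Q _
    rw [hW, ← sum_div, hZ, sum_lvl hG hF huv Q]
  have h1 := weight_le Z W (fun z _ => by rw [hW]; positivity) (by
    have h2 := hsum (fun _ => True)
    rw [filter_true_of_mem fun _ _ => trivial] at h2
    rw [h2]
    have h3 : {ξ | ξ ∈ bx u v ∧ True} = bx u v := by
      ext ξ
      simp
    rw [h3, vol_bx huv, ENNReal.toReal_ofReal hV.le, div_self hV.ne']) H (fun q hq1 hq ρ => by
    rw [hsum]
    exact vec_dist hG hw0 hw hF H hH q hq1 hq ρ) Bad p hBad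
  rw [hsum, div_le_iff₀ hV] at h1
  have hfin : volume {ξ | ξ ∈ bx u v ∧ Bad (fl F ξ)} ≠ ⊤ := by
    refine ne_top_of_le_ne_top (b := volume (bx u v)) ?_ (measure_mono fun ξ hξ => hξ.1)
    rw [vol_bx huv]
    exact ENNReal.ofReal_ne_top
  rw [← ENNReal.ofReal_toReal hfin]
  exact ENNReal.ofReal_le_ofReal h1

end

end Pool.Agent.Helper94.BC
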