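import Pool.Agent.Helper94.BC.Main

set_option autoImplicit false

/-! The engine with windows: all the integer vectors near the values of the functions are good, for
almost all parameters and all large indices. -/

namespace Pool.Agent.Helper94.BC

open Finset Filter Topology MeasureTheory
open Pool.Agent.N666.TM (Well)
open Pool.Agent.Y722.HS (red)

section
variable {ι : Type} [Fintype ι] [DecidableEq ι]

omit [DecidableEq ι] in
/-- translations of well distributed families are well distributed -/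
lemma well_add {S : Finset ℕ} {x : ℕ → ι → ℤ} {H : ℕ} (hw : Well S x H) (s : ι → ℤ) :
    Well S (fun n i => x n i + s i) H := by
  refine ⟨hw.pos, fun q hq1 hq ρ => ?_⟩
  have he : (S.filter fun n => red q (fun i => x n i + s i) = ρ) =
      S.filter fun n => red q (x n) = fun i => ρ i - ((s i : ℤ) : ZMod q) := by
    apply Finset.filter_congr
    intro n _
    unfold red
    constructor
    · intro h
      funext i
      have h2 : ((x n i + s i : ℤ) : ZMod q) = ρ i := congrFun h i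
      rw [← h2]
      push_cast
      ring
    · intro h
      funext i
      have h2 : ((x n i : ℤ) : ZMod q) = ρ i - ((s i : ℤ) : ZMod q) := congrFun h i
      push_cast
      rw [h2]
      ring
  rw [he]
  exact hw.dist q hq1 hq _

open Classical in
lemma win_card {S : Finset ℕ} {x : ℕ → ι → ℤ} {H X : ℕ} (hw : Well S x H) (Bad : (ι → ℤ) → Prop) {p : ℝ}
    (h : ∀ (S : Finset ℕ) (x : ℕ → ι → ℤ), Well S x H → ((S.filter fun n => Bad (x n)).card : ℝ) ≤ p * S.card) :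
    ((S.filter fun n => ∃ s : ι → ℤ, (∀ i, |s i| ≤ (X : ℤ)) ∧ Bad (fun i => x n i + s i)).card : ℝ) ≤
      p * (2 * X + 1 : ℝ) ^ Fintype.card ι * S.card := by
  obtain ⟨Y, hY⟩ : ∃ Y : Finset (ι → ℤ), Y = Fintype.piFinset fun _ => Icc (-(X : ℤ)) X := ⟨_, rfl⟩
  have hcard : (Y.card : ℝ) = (2 * X + 1 : ℝ) ^ Fintype.card ι := by
    rw [hY, Fintype.card_piFinset, prod_const, card_univ, Int.card_Icc]
    have : ((X : ℤ) + 1 - -(X : ℤ)).toNat = 2 * X + 1 := by omega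
    rw [this]
    push_cast
    rfl
  have hsub : (S.filter fun n => ∃ s : ι → ℤ, (∀ i, |s i| ≤ (X : ℤ)) ∧ Bad (fun i => x n i + s i)) ⊆
      Y.biUnion fun s => S.filter fun n => Bad (fun i => x n i + s i) := by
    intro n hn
    rw [mem_filter] at hn
    obtain ⟨hn1, s, hs1, hs2⟩ := hn
    rw [mem_biUnion]
    refine ⟨s, ?_, mem_filter.2 ⟨hn1, hs2⟩⟩
    rw [hY, Fintype.mem_piFinset]
    intro i
    rw [mem_Icc]
    exact abs_le.1 (hs1 i)
  have h1 : ((S.filter fun n => ∃ s : ι → ℤ, (∀ i, |s i| ≤ (X : ℤ)) ∧ Bad (fun i => x n i + s i)).card : ℝ) ≤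
      ∑ s ∈ Y, ((S.filter fun n => Bad (fun i => x n i + s i)).card : ℝ) := by
    have := (card_le_card hsub).trans card_biUnion_le
    exact_mod_cast this
  refine h1.trans ((sum_le_sum fun s _ => h S _ (well_add hw s)).trans (le_of_eq ?_))
  rw [sum_const, nsmul_eq_mul, hcard]
  ring

open Classical in
/-- **The engine with windows.** -/
theorem everyW (G : ℕ → ℝ) (hG : Tendsto G atTop atTop)
    (Bad : ℕ → (ι → ℤ) → Prop) (p : ℕ → ℝ) (X : ℕ → ℕ)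
    (hp : Summable fun t => p t * (2 * X t + 1 : ℝ) ^ Fintype.card ι)
    (h : ∀ᶠ t in atTop, (∀ z, ¬ Bad t z) ∨ ∀ (S : Finset ℕ) (x : ℕ → ι → ℤ), Well S x ⌊(G t) ^ (1 / 3 : ℝ)⌋₊ →
      ((S.filter fun n => Bad t (x n)).card : ℝ) ≤ p t * S.card) :
    (∀ (u v : ι → ℝ) (F : ι → ℕ → ℝ → ℝ), (∀ i, ∀ᶠ t in atTop, Cvx (u i) (v i) (G t) (F i t)) →
      ∀ᵐ ξ : ι → ℝ, (∀ i, ξ i ∈ Set.Ioc (u i) (v i)) → ∀ᶠ t in atTop, ∀ z : ι → ℤ,
        (∀ i, |(z i : ℝ) - F i t (ξ i)| ≤ X t) → ¬ Bad t z) ∧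
    (∀ g c : ι → ℕ → ℝ, (∀ i, ∀ᶠ t in atTop, G t ≤ g i t) →
      ∀ᵐ ξ : ι → ℝ, ∀ᶠ t in atTop, ∀ z : ι → ℤ,
        (∀ i, |(z i : ℝ) - (ξ i * g i t + c i t)| ≤ X t) → ¬ Bad t z) ∧
    (∀ (b : ℝ) (g : ι → ℕ → ℕ) (c : ι → ℕ → ℝ), 1 < b → (∀ i, ∀ᶠ t in atTop, G t ≤ b ^ g i t) →
      ∀ᵐ ξ : ι → ℝ, (∀ i, b < ξ i) → ∀ᶠ t in atTop, ∀ z : ι → ℤ,
        (∀ i, |(z i : ℝ) - (ξ i ^ g i t + c i t)| ≤ X t) → ¬ Bad t z) := by
  have h1 := every G hG (fun t z => ∃ s : ι → ℤ, (∀ i, |s i| ≤ (X t : ℤ)) ∧ Bad t (fun i => z i + s i))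
    (fun t => p t * (2 * X t + 1 : ℝ) ^ Fintype.card ι) hp (by
      filter_upwards [h] with t ht
      rcases ht with ht | ht
      · exact Or.inl fun z ⟨s, _, hs⟩ => ht _ hs
      · refine Or.inr fun S x hw => ?_
        convert win_card hw (Bad t) ht using 2)
  have h2 : ∀ (t : ℕ) (y : ι → ℝ), (¬ ∃ s : ι → ℤ, (∀ i, |s i| ≤ (X t : ℤ)) ∧ Bad t (fun i => ⌊y i⌋ + s i)) →
      ∀ z : ι → ℤ, (∀ i, |(z i : ℝ) - y i| ≤ X t) → ¬ Bad t z := by
    intro t y hy z hz hbad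
    apply hy
    refine ⟨fun i => z i - ⌊y i⌋, fun i => ?_, by simpa using hbad⟩
    have h3 := abs_le.1 (hz i)
    have h4 := Int.floor_le (y i)
    have h5 := Int.lt_floor_add_one (y i)
    beta_reduce
    rw [abs_le]
    constructor
    · have : (-(X t : ℤ) : ℝ) - 1 < ((z i - ⌊y i⌋ : ℤ) : ℝ) := by
        push_cast
        linarith
      have h6 : -(X t : ℤ) - 1 < z i - ⌊y i⌋ := by exact_mod_cast this
      omega
    · have : ((z i - ⌊y i⌋ : ℤ) : ℝ) < (X t : ℝ) + 1 := by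
        push_cast
        linarith
      have h6 : z i - ⌊y i⌋ < (X t : ℤ) + 1 := by exact_mod_cast this
      omega
  obtain ⟨k1, k2, k3⟩ := h1
  refine ⟨fun u v F hF => ?_, fun g c hg => ?_, fun b g c hb hg => ?_⟩
  · filter_upwards [k1 u v F hF] with ξ hξ hξ2
    filter_upwards [hξ hξ2] with t ht
    exact h2 t _ ht
  · filter_upwards [k2 g c hg] with ξ hξ
    filter_upwards [hξ] with t ht
    exact h2 t _ ht
  · filter_upwards [k3 b g c hb hg] with ξ hξ hξ2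
    filter_upwards [hξ hξ2] with t ht
    exact h2 t _ ht

/-- An engine with an exceptional proportion `H ^ (-δ)` for the well distributed families modulo the
integers up to `H`, in terms of the slope. -/
theorem everyP (Bad : ℝ → ℝ → (ι → ℤ) → Prop) [∀ X Y v, Decidable (Bad X Y v)]
    (hmono : ∀ X X' Y Y' v, X ≤ X' → Y' ≤ Y → Bad X Y v → Bad X' Y' v) {A δ : ℝ} (hA : 0 < A)
    (hδ : 0 < δ) {H₀ : ℕ}
    (h : ∀ H : ℕ, H₀ ≤ H → ∀ (S : Finset ℕ) (x : ℕ → ι → ℤ), Well S x H →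
      ((S.filter fun n => Bad ((H : ℝ) ^ δ) (Real.log H ^ A) (x n)).card : ℝ) ≤
        S.card * (H : ℝ) ^ (-δ)) :
    ∃ δ' R : ℝ, 0 < δ' ∧ 0 < R ∧ ∀ G : ℕ → ℝ, (∀ᶠ t : ℕ in atTop, (t : ℝ) ^ R ≤ G t) →
    (∀ (u v : ι → ℝ) (F : ι → ℕ → ℝ → ℝ), (∀ i, ∀ᶠ t in atTop, Cvx (u i) (v i) (G t) (F i t)) →
      ∀ᵐ ξ : ι → ℝ, (∀ i, ξ i ∈ Set.Ioc (u i) (v i)) → ∀ᶠ t in atTop, ∀ z : ι → ℤ,
        (∀ i, |(z i : ℝ) - F i t (ξ i)| ≤ (G t) ^ δ') → ¬ Bad ((G t) ^ δ') (Real.log (G t) ^ A) z) ∧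
    (∀ g c : ι → ℕ → ℝ, (∀ i, ∀ᶠ t in atTop, G t ≤ g i t) →
      ∀ᵐ ξ : ι → ℝ, ∀ᶠ t in atTop, ∀ z : ι → ℤ,
        (∀ i, |(z i : ℝ) - (ξ i * g i t + c i t)| ≤ (G t) ^ δ') → ¬ Bad ((G t) ^ δ') (Real.log (G t) ^ A) z) ∧
    (∀ (b : ℝ) (g : ι → ℕ → ℕ) (c : ι → ℕ → ℝ), 1 < b → (∀ i, ∀ᶠ t in atTop, G t ≤ b ^ g i t) →
      ∀ᵐ ξ : ι → ℝ, (∀ i, b < ξ i) → ∀ᶠ t in atTop, ∀ z : ι → ℤ,
        (∀ i, |(z i : ℝ) - (ξ i ^ g i t + c i t)| ≤ (G t) ^ δ') → ¬ Bad ((G t) ^ δ') (Real.log (G t) ^ A) z) := by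
  classical
  obtain ⟨n, hn⟩ : ∃ n : ℕ, n = Fintype.card ι := ⟨_, rfl⟩
  obtain ⟨δ', hδ'⟩ : ∃ δ' : ℝ, δ' = δ / (12 * (n + 1)) := ⟨_, rfl⟩
  have hδ'0 : 0 < δ' := by rw [hδ']; positivity
  refine ⟨δ', 24 / δ, hδ'0, by positivity, fun G hG => ?_⟩
  have hGt : Tendsto G atTop atTop := by
    refine tendsto_atTop_mono' _ hG ?_
    exact (tendsto_rpow_atTop (by positivity)).comp tendsto_natCast_atTop_atTop
  -- the windows
  obtain ⟨X, hX⟩ : ∃ X : ℕ → ℕ, X = fun t => ⌈(G t) ^ δ'⌉₊ := ⟨_, rfl⟩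
  obtain ⟨H, hH⟩ : ∃ H : ℕ → ℕ, H = fun t => ⌊(G t) ^ (1 / 3 : ℝ)⌋₊ := ⟨_, rfl⟩
  -- eventual estimates
  have hev : ∀ᶠ t in atTop, H₀ + 1 ≤ H t ∧ (G t) ^ δ' ≤ (H t : ℝ) ^ δ ∧ Real.log (H t) ^ A ≤ Real.log (G t) ^ A ∧
      (H t : ℝ) ^ (-δ) * (2 * X t + 1 : ℝ) ^ n ≤ (t : ℝ) ^ (-(2 : ℝ)) := by
    have hev1 : ∀ᶠ x : ℝ in atTop, (H₀ : ℝ) + 2 ≤ x ^ (1 / 3 : ℝ) / 2 ∧ x ^ δ' ≤ (x ^ (1 / 3 : ℝ) / 2) ^ δ ∧
        (x ^ (1 / 3 : ℝ) / 2) ^ (-δ) * (5 * x ^ δ') ^ n ≤ x ^ (-(δ / 12)) ∧ 1 ≤ x := by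
      have h1 : Tendsto (fun x : ℝ => x ^ (1 / 3 : ℝ)) atTop atTop := tendsto_rpow_atTop (by norm_num)
      have h2 : Tendsto (fun x : ℝ => x ^ (δ / 12)) atTop atTop := tendsto_rpow_atTop (by positivity)
      filter_upwards [h1.eventually (eventually_ge_atTop (2 * (H₀ + 2 : ℝ))), eventually_ge_atTop (1 : ℝ),
        h2.eventually (eventually_ge_atTop ((2 : ℝ) ^ δ * 5 ^ n)), h2.eventually (eventually_ge_atTop ((2 : ℝ) ^ δ))] with x hx1 hx2 hx3 hx4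
      have hx0 : 0 < x := by linarith
      have e1 : (x ^ (1 / 3 : ℝ) / 2) ^ δ = x ^ (δ / 3) / 2 ^ δ := by
        rw [Real.div_rpow (by positivity) (by norm_num), ← Real.rpow_mul hx0.le]
        congr 2
        ring
      have e2 : (x ^ (1 / 3 : ℝ) / 2) ^ (-δ) = x ^ (-(δ / 3)) * 2 ^ δ := by
        rw [Real.rpow_neg (by positivity), e1, inv_div, Real.rpow_neg hx0.le, div_eq_mul_inv, mul_comm]
      have hδ12 : δ' ≤ δ / 12 := by
        rw [hδ']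
        apply div_le_div_of_nonneg_left hδ.le (by norm_num)
        have : (0 : ℝ) ≤ n := Nat.cast_nonneg _
        linarith
      have hnδ : δ' * n ≤ δ / 12 := by
        rw [hδ', div_mul_eq_mul_div, div_le_div_iff₀ (by positivity) (by norm_num)]
        have : (0 : ℝ) ≤ n := Nat.cast_nonneg _
        nlinarith
      refine ⟨by linarith, ?_, ?_, hx2⟩
      · rw [e1, le_div_iff₀ (by positivity)]
        calc x ^ δ' * 2 ^ δ ≤ x ^ (δ / 12) * x ^ (δ / 12) :=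
              mul_le_mul (Real.rpow_le_rpow_of_exponent_le hx2 hδ12) hx4 (by positivity) (by positivity)
          _ = x ^ (δ / 12 + δ / 12) := by rw [Real.rpow_add hx0]
          _ ≤ x ^ (δ / 3) := Real.rpow_le_rpow_of_exponent_le hx2 (by linarith)
      · rw [e2, mul_pow, ← Real.rpow_natCast (x ^ δ'), ← Real.rpow_mul hx0.le]
        have h5 : x ^ (δ' * n) ≤ x ^ (δ / 12) := Real.rpow_le_rpow_of_exponent_le hx2 hnδ
        calc x ^ (-(δ / 3)) * 2 ^ δ * (5 ^ n * x ^ (δ' * (n : ℝ))) =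
              x ^ (-(δ / 3)) * (2 ^ δ * 5 ^ n) * x ^ (δ' * (n : ℝ)) := by ring
          _ ≤ x ^ (-(δ / 3)) * x ^ (δ / 12) * x ^ (δ / 12) := by gcongr
          _ = x ^ (-(δ / 3) + δ / 12 + δ / 12) := by rw [Real.rpow_add hx0, Real.rpow_add hx0]
          _ ≤ x ^ (-(δ / 12)) := Real.rpow_le_rpow_of_exponent_le hx2 (by linarith)
    filter_upwards [hGt.eventually hev1, hG, eventually_ge_atTop 1] with t ht1 ht2 ht3
    obtain ⟨h1, h2, h3, h4⟩ := ht1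
    have htr : (1 : ℝ) ≤ t := by exact_mod_cast ht3
    have hG0 : 0 < G t := by linarith
    have hHlow : (G t) ^ (1 / 3 : ℝ) / 2 ≤ H t := by
      have h5 : (G t) ^ (1 / 3 : ℝ) < H t + 1 := by
        rw [hH]
        exact Nat.lt_floor_add_one _
      have : (0 : ℝ) ≤ H₀ := Nat.cast_nonneg _
      linarith
    have hHup : (H t : ℝ) ≤ G t := by
      have h5 : (H t : ℝ) ≤ (G t) ^ (1 / 3 : ℝ) := by
        rw [hH]
        exact Nat.floor_le (by positivity)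
      refine h5.trans ?_
      calc (G t) ^ (1 / 3 : ℝ) ≤ (G t) ^ (1 : ℝ) := Real.rpow_le_rpow_of_exponent_le h4 (by norm_num)
        _ = G t := Real.rpow_one _
    have hpos : 0 < (G t) ^ (1 / 3 : ℝ) / 2 := by positivity
    have hH1 : (1 : ℝ) ≤ H t := by
      have : (0 : ℝ) ≤ H₀ := Nat.cast_nonneg _
      linarith
    refine ⟨?_, ?_, ?_, ?_⟩
    · have : (H₀ : ℝ) + 1 ≤ H t := by linarith
      exact_mod_cast this
    · exact h2.trans (Real.rpow_le_rpow hpos.le hHlow hδ.le)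
    · exact Real.rpow_le_rpow (Real.log_nonneg hH1) (Real.log_le_log (by linarith) hHup) hA.le
    · have h6 : (2 * X t + 1 : ℝ) ≤ 5 * (G t) ^ δ' := by
        have h7 : (X t : ℝ) < (G t) ^ δ' + 1 := by
          rw [hX]
          exact Nat.ceil_lt_add_one (by positivity)
        have h8 : (1 : ℝ) ≤ (G t) ^ δ' := Real.one_le_rpow h4 hδ'0.le
        linarith
      have h9 : (H t : ℝ) ^ (-δ) ≤ ((G t) ^ (1 / 3 : ℝ) / 2) ^ (-δ) :=
        Real.rpow_le_rpow_of_nonpos hpos hHlow (by linarith)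
      calc (H t : ℝ) ^ (-δ) * (2 * X t + 1 : ℝ) ^ n ≤ ((G t) ^ (1 / 3 : ℝ) / 2) ^ (-δ) * (5 * (G t) ^ δ') ^ n := by gcongr
        _ ≤ (G t) ^ (-(δ / 12)) := h3
        _ ≤ ((t : ℝ) ^ (24 / δ)) ^ (-(δ / 12)) :=
            Real.rpow_le_rpow_of_nonpos (by positivity) ht2 (by linarith)
        _ = (t : ℝ) ^ (-(2 : ℝ)) := by
            rw [← Real.rpow_mul (by linarith)]
            congr 1
            field_simp
            norm_num
  obtain ⟨t₀, ht₀⟩ := eventually_atTop.1 hev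
  have hsum : Summable fun t : ℕ => (if t₀ ≤ t then (H t : ℝ) ^ (-δ) else 0) * (2 * X t + 1 : ℝ) ^ Fintype.card ι := by
    have h1 : Summable fun t : ℕ => (t : ℝ) ^ (-(2 : ℝ)) := Real.summable_nat_rpow.2 (by norm_num)
    refine Summable.of_norm_bounded_eventually_nat h1 ?_
    filter_upwards [eventually_ge_atTop t₀] with t ht
    rw [if_pos ht, Real.norm_of_nonneg (by positivity), ← hn]
    exact (ht₀ t ht).2.2.2
  have h1 := everyW G hGt (fun t z => Bad ((G t) ^ δ') (Real.log (G t) ^ A) z)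
    (fun t => if t₀ ≤ t then (H t : ℝ) ^ (-δ) else 0) X hsum (by
      filter_upwards [eventually_ge_atTop t₀] with t ht
      refine Or.inr fun S x hw => ?_
      obtain ⟨h2, h3, h4, _⟩ := ht₀ t ht
      rw [if_pos ht]
      have h5 := h (H t) (by omega) S x (by rw [hH]; exact hw)
      have h6 : ((S.filter fun n => Bad ((G t) ^ δ') (Real.log (G t) ^ A) (x n)).card : ℝ) ≤
          ((S.filter fun n => Bad ((H t : ℝ) ^ δ) (Real.log (H t) ^ A) (x n)).card : ℝ) := by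
        apply Nat.cast_le.2
        apply card_le_card
        intro k hk
        rw [mem_filter] at hk ⊢
        exact ⟨hk.1, hmono _ _ _ _ _ h3 h4 hk.2⟩
      refine le_trans ?_ (h6.trans (h5.trans (le_of_eq (mul_comm _ _))))
      apply le_of_eq
      congr!)
  have hXle : ∀ t, (G t) ^ δ' ≤ X t := fun t => by
    rw [hX]
    exact Nat.le_ceil _
  obtain ⟨k1, k2, k3⟩ := h1
  refine ⟨fun u v F hF => ?_, fun g c hg => ?_, fun b g c hb hg => ?_⟩
  · filter_upwards [k1 u v F hF] with ξ hξ hξ2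
    filter_upwards [hξ hξ2] with t ht z hz
    exact ht z fun i => (hz i).trans (hXle t)
  · filter_upwards [k2 g c hg] with ξ hξ
    filter_upwards [hξ] with t ht z hz
    exact ht z fun i => (hz i).trans (hXle t)
  · filter_upwards [k3 b g c hb hg] with ξ hξ hξ2
    filter_upwards [hξ hξ2] with t ht z hz
    exact ht z fun i => (hz i).trans (hXle t)

end

end Pool.Agent.Helper94.BC
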